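import Pool.Agent.N873.MF.Stm

/-! Project MF, part GL: the joint law without coprimality (helper588). -/

set_option autoImplicit false
set_option linter.unusedVariables false

open scoped Classical

namespace Pool.Agent.N873.MF

open Finset Filter
open Pool.Agent.N969.P15 (Qc)
open Pool.Agent.N916.GB (eta)
open Pool.Agent.N856.JL (sfp sfp_spec sfp_sqf sfp_dvd sfp_mul)
open Pool.Agent.N856.JL.All (sfp_inj_mul)
open Pool.Agent.N856.JL.Av (count HasDensity dens_congr)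
open Pool.Agent.N856.JT (dens_iff dens_mul)

namespace GLx

/-- sum over the values of the greatest common divisor -/
theorem count_fib (P : ℕ → Prop) (r : ℕ) (hr : 0 < r) (X : ℕ) :
    (count P X : ℝ) = ∑ g ∈ r.divisors, (count (fun n => P n ∧ n.gcd r = g) X : ℝ) := by
  unfold count
  rw [← Nat.cast_sum]
  congr 1
  rw [Finset.card_eq_sum_card_fiberwise (f := fun n : ℕ => n.gcd r) (t := r.divisors)]
  · refine Finset.sum_congr rfl fun g _ => ?_
    simp only [Finset.filter_filter]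
  · intro n _
    exact Finset.mem_coe.2 (Nat.mem_divisors.2 ⟨Nat.gcd_dvd_right n r, hr.ne'⟩)

theorem count_zero {P : ℕ → Prop} (h : ∀ n, ¬ P n) (X : ℕ) : count P X = 0 := by
  unfold count
  rw [Finset.card_eq_zero, Finset.filter_eq_empty_iff]
  exact fun n _ => h n

/-- a class is the union of the parts with given greatest common divisor with `r` -/
theorem glue {P Q : ℕ → Prop} {δ : ℝ} {n₀ : ℕ} (h0 : 0 < n₀) (hn : P n₀) (hpos : ∀ n, P n → 0 < n)
    {r : ℕ} (hr : 0 < r)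
    (h : ∀ g ∈ r.divisors, (∃ n, P n ∧ n.gcd r = g) →
      HasDensity (fun n => P n ∧ n.gcd r = g) Q δ) : HasDensity P Q δ := by
  rw [dens_iff h0 hn]
  intro ε hε
  have h1 : ∀ g ∈ r.divisors, ∀ᶠ X : ℕ in atTop,
      |(count (fun n => (P n ∧ Q n) ∧ n.gcd r = g) X : ℝ) -
        δ * count (fun n => P n ∧ n.gcd r = g) X| ≤ ε * count (fun n => P n ∧ n.gcd r = g) X := by
    intro g hg
    by_cases hex : ∃ n, P n ∧ n.gcd r = g
    · obtain ⟨m, hm⟩ := hex
      have h2 := (dens_iff (P := fun n => P n ∧ n.gcd r = g) (hpos m hm.1) hm).1 (h g hg ⟨m, hm⟩)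
      filter_upwards [h2 ε hε] with X hX
      have e : (fun n => (P n ∧ Q n) ∧ n.gcd r = g) = fun n => (P n ∧ n.gcd r = g) ∧ Q n := by
        funext n
        exact propext ⟨fun h => ⟨⟨h.1.1, h.2⟩, h.1.2⟩, fun h => ⟨⟨h.1.1, h.2⟩, h.1.2⟩⟩
      rw [e]
      exact hX
    · refine Eventually.of_forall fun X => ?_
      rw [count_zero (fun n hn => hex ⟨n, hn⟩), count_zero (fun n hn => hex ⟨n, hn.1.1, hn.2⟩)]
      simp
  have h2 := (Filter.eventually_all_finset r.divisors).2 h1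
  filter_upwards [h2] with X hX
  rw [count_fib P r hr, count_fib (fun n => P n ∧ Q n) r hr, Finset.mul_sum, Finset.mul_sum,
    ← Finset.sum_sub_distrib]
  exact (Finset.abs_sum_le_sum_abs _ _).trans (Finset.sum_le_sum hX)

/-- the residues of the cofactors -/
noncomputable def Kg (M r g : ℕ) (K : Finset ℕ) : Finset ℕ :=
  (range (M * r)).filter fun a => a.Coprime r ∧ (g * a) % M ∈ K

theorem mem_Kg {M r g : ℕ} (hM : 0 < M) (hr : 0 < r) {K : Finset ℕ} {m : ℕ} :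
    m % (M * r) ∈ Kg M r g K ↔ m.Coprime r ∧ (g * m) % M ∈ K := by
  unfold Kg
  rw [mem_filter, mem_range]
  have h1 : (m % (M * r)).gcd r = m.gcd r :=
    Nat.ModEq.gcd_eq ((Nat.mod_modEq m (M * r)).of_dvd (Dvd.intro_left M rfl))
  have h2 : g * (m % (M * r)) % M = g * m % M := by
    rw [Nat.mul_mod, Nat.mod_mod_of_dvd m (Dvd.intro _ rfl : M ∣ M * r), ← Nat.mul_mod]
  rw [h2]
  unfold Nat.Coprime
  rw [h1]
  exact ⟨fun h => h.2, fun h => ⟨Nat.mod_lt _ (Nat.mul_pos hM hr), h⟩⟩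

theorem mod_four {y t : ℕ} (h : (y * t ^ 2) % 4 = 3) : y % 4 = 3 := by
  obtain ⟨k, rfl | rfl⟩ := Nat.even_or_odd' t
  · have e : y * (2 * k) ^ 2 = 4 * (y * k ^ 2) := by ring
    rw [e] at h
    omega
  · have e : y * (2 * k + 1) ^ 2 = 4 * (y * (k ^ 2 + k)) + y := by ring
    rw [e] at h
    omega

/-- the law for the part with given greatest common divisor -/
theorem part {M : ℕ} (hM : 0 < M) {K : Finset ℕ} {P : ℕ → Prop}
    (hP : ∀ n, P n ↔ Squarefree n ∧ n % M ∈ K) (hodd : ∀ n, P n → n % 2 = 1) {W : Finset ℕ}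
    (hW : ∀ c ∈ W, Squarefree c ∧ c % 2 = 1 ∧ ∀ n, P n → (n * c) % 4 = 3) {r g : ℕ} (hr : 0 < r)
    (hWr : ∀ c ∈ W, c ∣ r) (hgr : g ∣ r) (hex : ∃ n, P n ∧ n.gcd r = g) :
    HasDensity (fun n => P n ∧ n.gcd r = g) (fun n => ∀ c ∈ W, Qc (sfp (c * n)))
      (eta ^ W.card) := by
  obtain ⟨n₁, hn₁, hg1⟩ := hex
  obtain ⟨m₁, rfl⟩ : g ∣ n₁ := hg1 ▸ Nat.gcd_dvd_left n₁ r
  have hgs : Squarefree g := ((hP _).1 hn₁).1.squarefree_of_dvd (Dvd.intro _ rfl)
  have hg0 : 0 < g := Nat.pos_of_ne_zero hgs.ne_zero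
  have key : ∀ m, (Squarefree m ∧ m % (M * r) ∈ Kg M r g K) ↔ (P (g * m) ∧ (g * m).gcd r = g) := by
    intro m
    rw [mem_Kg hM hr]
    constructor
    · rintro ⟨hm, hmr, hk⟩
      have h1 : g.Coprime m := (Nat.Coprime.coprime_dvd_right hgr hmr).symm
      exact ⟨(hP _).2 ⟨(Nat.squarefree_mul h1).2 ⟨hgs, hm⟩, hk⟩, by
        rw [Nat.Coprime.gcd_mul_right_cancel g hmr, Nat.gcd_eq_left hgr]⟩
    · rintro ⟨hP1, hgcd⟩
      obtain ⟨hs, hk⟩ := (hP _).1 hP1
      refine ⟨hs.squarefree_of_dvd (Dvd.intro_left _ rfl), ?_, hk⟩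
      by_contra hc
      obtain ⟨p, hp, hpm, hpr⟩ := Nat.Prime.not_coprime_iff_dvd.1 hc
      have h1 : p ∣ g := hgcd ▸ Nat.dvd_gcd (hpm.mul_left g) hpr
      exact hp.one_lt.ne' (Nat.isUnit_iff.1 (hs p (mul_dvd_mul h1 hpm)))
  have eP : (fun n => P n ∧ n.gcd r = g) =
      fun n => ∃ m, n = g * m ∧ (Squarefree m ∧ m % (M * r) ∈ Kg M r g K) := by
    funext n
    refine propext ⟨?_, ?_⟩
    · rintro ⟨h1, h2⟩
      obtain ⟨m, rfl⟩ : g ∣ n := h2 ▸ Nat.gcd_dvd_left n r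
      exact ⟨m, rfl, (key m).2 ⟨h1, h2⟩⟩
    · rintro ⟨m, rfl, h⟩
      exact (key m).1 h
  rw [eP]
  refine dens_mul hg0 ?_
  have hW0 : ∀ c ∈ W, 0 < c := fun c hc => Nat.pos_of_ne_zero (hW c hc).1.ne_zero
  have hcop : ∀ m, m % (M * r) ∈ Kg M r g K → ∀ c ∈ W, m.Coprime (c * g) := by
    intro m hm c hc
    have h1 := ((mem_Kg hM hr).1 hm).1
    exact Nat.Coprime.mul_right (Nat.Coprime.coprime_dvd_right (hWr c hc) h1)
      (Nat.Coprime.coprime_dvd_right hgr h1)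
  have hgo : g % 2 = 1 := by
    have h1 := hodd _ hn₁
    rw [Nat.mul_mod] at h1
    rcases Nat.mod_two_eq_zero_or_one g with h2 | h2
    · rw [h2, zero_mul] at h1
      exact absurd h1 (by norm_num)
    · exact h2
  have hl := Pool.Agent.N856.JM.law (I := W) (c := fun s => sfp ((s : ℕ) * g))
    (fun s t h => Subtype.ext (sfp_inj_mul (hW _ s.2).1 (hW _ t.2).1 hg0 h))
    (fun s => ⟨sfp_sqf _, by
      have h1 := sfp_dvd (Nat.mul_pos (hW0 _ s.2) hg0)
      have h2 : ((s : ℕ) * g) % 2 = 1 := by rw [Nat.mul_mod, (hW _ s.2).2.1, hgo]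
      exact Nat.odd_iff.1 ((Nat.odd_iff.2 h2).of_dvd_nat h1)⟩)
    (Nat.mul_pos hM hr) (K := Kg M r g K)
    (fun n hn hk => by
      have h1 := hodd _ ((key n).1 ⟨hn, hk⟩).1
      exact Nat.odd_iff.1 (Nat.odd_mul.1 (Nat.odd_iff.2 h1)).2)
    (fun n hn hk s => ⟨Nat.Coprime.coprime_dvd_right (sfp_dvd (Nat.mul_pos (hW0 _ s.2) hg0))
      (hcop n hk s s.2), by
      obtain ⟨t, ht, h1, -⟩ := sfp_spec (Nat.mul_pos (hW0 _ s.2) hg0)
      have h2 := (hW _ s.2).2.2 _ ((key n).1 ⟨hn, hk⟩).1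
      refine mod_four (t := t) ?_
      have e : n * sfp ((s : ℕ) * g) * t ^ 2 = g * n * (s : ℕ) := by
        rw [mul_assoc, h1]
        ring
      rw [e]
      exact h2⟩)
    ((key m₁).2 ⟨hn₁, hg1⟩).1 ((key m₁).2 ⟨hn₁, hg1⟩).2
  rw [Fintype.card_coe] at hl
  have hd : HasDensity (fun n => Squarefree n ∧ n % (M * r) ∈ Kg M r g K)
      (fun n => ∀ s : W, Qc (sfp ((s : ℕ) * g) * n)) (eta ^ W.card) := by
    unfold HasDensity
    refine hl.congr fun X => ?_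
    unfold count
    congr!
  refine dens_congr (fun _ => Iff.rfl) (fun m hm => ?_) hd
  rw [Subtype.forall]
  refine forall_congr' fun c => forall_congr' fun hc => ?_
  have e : sfp (c * (g * m)) = sfp (c * g) * m := by
    rw [← mul_assoc]
    exact sfp_mul (Nat.mul_pos (hW0 c hc) hg0) hm.1 (hcop m hm.2 c hc).symm
  rw [e]

end GLx

/-- the joint law without coprimality -/
theorem t_GL : S_GL := by
  intro M hM K P hP hex hodd W hW
  obtain ⟨n₀, hn₀⟩ := hex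
  have hpos : ∀ n, P n → 0 < n := fun n hn => Nat.pos_of_ne_zero ((hP n).1 hn).1.ne_zero
  have hr0 : 0 < ∏ c ∈ W, c := prod_pos fun c hc => Nat.pos_of_ne_zero (hW c hc).1.ne_zero
  refine GLx.glue (hpos n₀ hn₀) hn₀ hpos hr0 ?_
  intro g hg hgex
  exact GLx.part hM hP hodd hW hr0 (fun c hc => dvd_prod_of_mem (fun c => c) hc)
    (Nat.dvd_of_mem_divisors hg) hgex

end Pool.Agent.N873.MF
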