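import Pool.Agent.N873.MF.Stm2
import Pool.Agent.Y697.MQ.Kum

/-!
# MF-CHR: the characters of a multiquadratic field
(`gal_of`, `gal_inj` are adapted from `Pool.Agent.Y73.QMQ1.Gal`)
-/

set_option autoImplicit false

open scoped Classical

namespace Pool.Agent.N873.MF.CHR

open Finset Pool.Agent.Y697.MQ

variable {K : Type} [Field K] [NumberField K] {n : ℕ} {d : Fin n → ℕ} {x : Fin n → K}

theorem gal_of (hx : ∀ i, x i ^ 2 = (d i : K))
    (hK : IntermediateField.adjoin ℚ (Set.range x) = ⊤) : IsGalois ℚ K := by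
  set p : Polynomial ℚ := ∏ i, (Polynomial.X ^ 2 - Polynomial.C ((d i : ℚ))) with hp
  have hfac : ∀ i, Polynomial.map (algebraMap ℚ K)
      (Polynomial.X ^ 2 - Polynomial.C ((d i : ℚ))) =
      (Polynomial.X - Polynomial.C (x i)) * (Polynomial.X - Polynomial.C (-x i)) := by
    intro i
    rw [Polynomial.map_sub, Polynomial.map_pow, Polynomial.map_X, Polynomial.map_C, map_natCast,
      ← hx i, Polynomial.C_neg, Polynomial.C_pow]
    ring
  have hp0 : p ≠ 0 := Finset.prod_ne_zero_iff.2 fun i _ => Polynomial.X_pow_sub_C_ne_zero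
    (by norm_num) _
  have : Polynomial.IsSplittingField ℚ K p := by
    rw [isSplittingField_iff_intermediateField]
    constructor
    · rw [hp, Polynomial.map_prod]
      apply Polynomial.Splits.prod
      intro i _
      rw [hfac i]
      exact (Polynomial.Splits.X_sub_C _).mul (Polynomial.Splits.X_sub_C _)
    · rw [eq_top_iff, ← hK, IntermediateField.adjoin_le_iff]
      rintro _ ⟨i, rfl⟩
      apply IntermediateField.subset_adjoin
      rw [Polynomial.mem_rootSet]
      refine ⟨hp0, ?_⟩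
      rw [hp, map_prod]
      apply Finset.prod_eq_zero (Finset.mem_univ i)
      rw [map_sub, map_pow, Polynomial.aeval_X, Polynomial.aeval_C, map_natCast, hx i, sub_self]
  have : Normal ℚ K := Normal.of_isSplittingField p
  have : Algebra.IsSeparable ℚ K := Algebra.IsAlgebraic.isSeparable_of_perfectField
  exact ⟨⟩

theorem gal_inj (hK : IntermediateField.adjoin ℚ (Set.range x) = ⊤) (σ : K ≃ₐ[ℚ] K)
    (hσ : ∀ i, σ (x i) = x i) : σ = 1 := by
  let E : IntermediateField ℚ K :=
    (RingHom.eqLocusField (σ : K →+* K) (RingHom.id K)).toIntermediateField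
      (fun q => σ.commutes q)
  have h : (⊤ : IntermediateField ℚ K) ≤ E := by
    rw [← hK, IntermediateField.adjoin_le_iff]
    rintro _ ⟨i, rfl⟩
    exact hσ i
  ext y
  exact h (IntermediateField.mem_top (x := y))

/-- an element whose conjugates are `± y` defines a character -/
theorem exists_char (y : K) (hy0 : y ≠ 0) (hy : ∀ σ : K ≃ₐ[ℚ] K, σ y = y ∨ σ y = -y) :
    ∃ χ : (K ≃ₐ[ℚ] K) →* ℤˣ, ∀ σ : K ≃ₐ[ℚ] K, σ y = (((χ σ : ℤˣ) : ℤ) : K) * y := by
  have hne : -y ≠ y := fun h => hy0 (self_eq_neg.1 h.symm)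
  have hval : ∀ σ : K ≃ₐ[ℚ] K, σ y = ((((if σ y = y then 1 else -1 : ℤˣ)) : ℤ) : K) * y := by
    intro σ
    rcases hy σ with h | h
    · rw [if_pos h, h]; simp
    · rw [if_neg (by rw [h]; exact hne), h]; simp
  have hinj : ∀ u v : ℤˣ, (((u : ℤˣ) : ℤ) : K) * y = (((v : ℤˣ) : ℤ) : K) * y → u = v := by
    intro u v h
    have h1 := mul_right_cancel₀ hy0 h
    exact Units.ext (by exact_mod_cast h1)
  refine ⟨⟨⟨fun σ => if σ y = y then 1 else -1, ?_⟩, ?_⟩, hval⟩
  · exact if_pos rfl
  · intro σ τ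
    apply hinj
    rw [← hval (σ * τ), AlgEquiv.mul_apply, hval τ, map_mul, map_intCast, Units.val_mul]
    push_cast
    rw [mul_comm ((((if σ y = y then 1 else -1 : ℤˣ)) : ℤ) : K), mul_assoc, ← hval σ, hval τ]

theorem sg_single (i j : Fin n) : sg ((Pi.single i 1 : Fin n → ZMod 2) j) = if j = i then -1 else 1 := by
  by_cases h : j = i
  · subst h; rw [Pi.single_eq_same, if_pos rfl]; rfl
  · rw [Pi.single_eq_of_ne h, if_neg h]; rfl

theorem e_prod (i : Fin n) (e : K ≃ₐ[ℚ] K)
    (he : ∀ j, e (x j) = (sg ((Pi.single i 1 : Fin n → ZMod 2) j) : K) * x j) (T : Finset (Fin n)) :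
    e (∏ j ∈ T, x j) = ((if i ∈ T then -1 else 1 : ℤ) : K) * ∏ j ∈ T, x j := by
  rw [map_prod, prod_congr rfl fun j _ => he j, prod_mul_distrib]
  congr 1
  rw [← Int.cast_prod]
  congr 1
  rw [prod_congr rfl fun j _ => sg_single i j, prod_ite_eq']

end Pool.Agent.N873.MF.CHR

namespace Pool.Agent.N873.MF

open Finset Pool.Agent.Y697.MQ CHR

theorem t_CHR : S_CHR := by
  intro r d hd hind K _ _ x hx hK
  have hgal : IsGalois ℚ K := gal_of hx hK
  have hd0 : ∀ i, (d i : ℚ) ≠ 0 := fun i => Nat.cast_ne_zero.2 (hd i).ne'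
  have hx' : ∀ i, x i ^ 2 = algebraMap ℚ K (d i : ℚ) := fun i => by rw [hx i, map_natCast]
  have hind' : ∀ J : Finset (Fin r), J.Nonempty → ¬ IsSquare (∏ i ∈ J, (d i : ℚ)) := by
    intro J hJ h2
    apply hind J hJ
    have h3 : (∏ i ∈ J, (d i : ℚ)) = ((∏ i ∈ J, d i : ℕ) : ℚ) := by push_cast; rfl
    rw [h3] at h2
    exact Rat.isSquare_natCast_iff.1 h2
  have hcard := kummer_card (k := ℚ) (K := K) (I := Fin r) x (fun i => (d i : ℚ)) hd0 hx' two_ne_zero
    hind' (fun σ hσ => gal_inj hK σ hσ)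
  have hx0 : ∀ i, x i ≠ 0 := by
    intro i h
    have h1 := hx i
    rw [h] at h1
    have h2 : ((d i : ℕ) : K) = 0 := by rw [← h1]; ring
    exact (hd i).ne' (Nat.cast_eq_zero.1 h2)
  have hp0 : ∀ T : Finset (Fin r), ∏ i ∈ T, x i ≠ 0 := fun T => prod_ne_zero_iff.2 fun i _ => hx0 i
  have hchar : ∀ T : Finset (Fin r), ∃ χ : (K ≃ₐ[ℚ] K) →* ℤˣ, ∀ σ : K ≃ₐ[ℚ] K,
      σ (∏ i ∈ T, x i) = (((χ σ : ℤˣ) : ℤ) : K) * ∏ i ∈ T, x i := by
    intro T
    refine exists_char _ (hp0 T) fun σ => ?_
    apply sq_eq_sq_iff_eq_or_eq_neg.1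
    rw [← map_pow, ← prod_pow, prod_congr rfl fun i _ => hx i, ← Nat.cast_prod, map_natCast]
  refine ⟨hgal, ?_, hchar, ?_⟩
  · rw [← IsGalois.card_aut_eq_finrank, hcard, Fintype.card_fin]
  · intro χ
    choose e he using fun i => kummer (k := ℚ) (K := K) (I := Fin r) x (fun i => (d i : ℚ)) hd0 hx'
      two_ne_zero hind' (Pi.single i 1)
    have hT : ∀ (T : Finset (Fin r)) (ψ : (K ≃ₐ[ℚ] K) →* ℤˣ), (∀ σ : K ≃ₐ[ℚ] K,
        σ (∏ i ∈ T, x i) = (((ψ σ : ℤˣ) : ℤ) : K) * ∏ i ∈ T, x i) → ∀ i, ψ (e i) = -1 ↔ i ∈ T := by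
      intro T ψ h i
      have h1 := (e_prod i (e i) (he i) T).symm.trans (h (e i))
      have h2 := mul_right_cancel₀ (hp0 T) h1
      have h3 : (if i ∈ T then -1 else 1 : ℤ) = ((ψ (e i) : ℤˣ) : ℤ) := by exact_mod_cast h2
      constructor
      · intro h4
        by_contra h5
        rw [if_neg h5, h4] at h3
        norm_num at h3
      · intro h4
        rw [if_pos h4] at h3
        exact Units.ext (by rw [← h3]; rfl)
    refine ⟨univ.filter fun i => χ (e i) = -1, ?_, ?_⟩
    · set T : Finset (Fin r) := univ.filter fun i => χ (e i) = -1 with hTd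
      obtain ⟨ψ, hψ⟩ := hchar T
      have hpm : ∀ u v : ℤˣ, (u = -1 ↔ v = -1) → u = v := by decide
      have hag : ∀ i, χ (e i) = ψ (e i) := fun i => hpm _ _ (by
        rw [hT T ψ hψ i, hTd, mem_filter]
        exact ⟨fun h => ⟨mem_univ _, h⟩, fun h => h.2⟩)
      have hall : ∀ (m : ℕ) (σ : K ≃ₐ[ℚ] K), (univ.filter fun i => σ (x i) ≠ x i).card = m → χ σ = ψ σ := by
        intro m
        induction m using Nat.strong_induction_on with
        | _ m ih =>
          intro σ hm
          by_cases h0 : ∀ i, σ (x i) = x i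
          · rw [gal_inj hK σ h0, map_one, map_one]
          · push Not at h0
            obtain ⟨i, hi⟩ := h0
            have hlt : (univ.filter fun j => (σ * e i) (x j) ≠ x j) ⊂ (univ.filter fun j => σ (x j) ≠ x j) := by
              rw [Finset.ssubset_iff_of_subset]
              · refine ⟨i, mem_filter.2 ⟨mem_univ _, hi⟩, fun h => (mem_filter.1 h).2 ?_⟩
                rw [AlgEquiv.mul_apply, he i i, sg_single, if_pos rfl, map_mul, map_intCast]
                have h1 : (σ (x i)) ^ 2 = (x i) ^ 2 := by rw [← map_pow, hx i, map_natCast]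
                rcases sq_eq_sq_iff_eq_or_eq_neg.1 h1 with h2 | h2
                · exact absurd h2 hi
                · rw [h2]; push_cast; ring
              · intro j hj
                have h1 := (mem_filter.1 hj).2
                refine mem_filter.2 ⟨mem_univ _, fun h2 => ?_⟩
                by_cases hji : j = i
                · subst hji; exact hi h2
                · apply h1
                  rw [AlgEquiv.mul_apply, he i j, sg_single, if_neg hji, map_mul, map_intCast, h2]
                  push_cast; ring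
            have h1 := ih _ (hm ▸ card_lt_card hlt) (σ * e i) rfl
            rw [map_mul, map_mul, hag i] at h1
            exact mul_right_cancel h1
      intro σ
      show σ (∏ i ∈ T, x i) = (((χ σ : ℤˣ) : ℤ) : K) * ∏ i ∈ T, x i
      rw [hall _ σ rfl]
      exact hψ σ
    · intro T' hT'
      ext i
      rw [mem_filter]
      exact ⟨fun h => ⟨mem_univ _, (hT T' χ hT' i).2 h⟩, fun h => (hT T' χ hT' i).1 h.2⟩

end Pool.Agent.N873.MF
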