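import Pool.Agent.N873.MF.Stm
import Pool.Agent.N873.UT.TR
import Pool.Agent.N873.UT.LOW
import Pool.Agent.N856.JL.Cmb

/-!
# MF-CL: the classes (project MF of helper873)

By helper776.
-/

set_option autoImplicit false
set_option linter.all false

open scoped Classical

namespace Pool.Agent.N873.MF.CL

open Finset
open Pool.Agent.N856.JL (sfp sfp_spec)
open Pool.Agent.N873.UT (NF Pr Adm t_LOW)
open Pool.Agent.N873.UT.TR (md Kr mem_NF jac_mod md_pos dvd_md)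
open Pool.Agent.N873.MF

/-- the residues of the discriminants -/
noncomputable def Kd (F : Finset (ℤ × ℤ)) : Finset ℕ :=
  (range (md F)).filter fun r => r % 8 = 1 ∧
    ∀ c ∈ F, ∀ p : ℕ, p.Prime → p ≠ 2 → ((p : ℤ) ∣ c.1 * c.2 ∨ (p : ℤ) ∣ c.1 ^ 2 - c.2 ^ 2) →
      jacobiSym r p = 1

theorem Dc_iff (F : Finset (ℤ × ℤ)) (hF : ∀ c ∈ F, Pr c) (d : ℕ) :
    Dc F d ↔ Squarefree d ∧ d % md F ∈ Kd F := by
  have h8 : d % md F % 8 = d % 8 := Nat.mod_mod_of_dvd d ⟨_, rfl⟩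
  have hj : (∀ c ∈ F, ∀ p : ℕ, p.Prime → p ≠ 2 →
      ((p : ℤ) ∣ c.1 * c.2 ∨ (p : ℤ) ∣ c.1 ^ 2 - c.2 ^ 2) → jacobiSym ((d % md F : ℕ) : ℤ) p = 1) ↔
      (∀ c ∈ F, ∀ p : ℕ, p.Prime → p ≠ 2 →
      ((p : ℤ) ∣ c.1 * c.2 ∨ (p : ℤ) ∣ c.1 ^ 2 - c.2 ^ 2) → jacobiSym (d : ℤ) p = 1) := by
    refine forall₂_congr fun c hc => forall₄_congr fun p hp hp2 hd => ?_
    rw [(jac_mod (dvd_md hc hd)).2]
  unfold Dc Kd
  rw [mem_filter, mem_range, hj, h8]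
  constructor
  · rintro ⟨h1, h2, h3⟩
    exact ⟨h1, Nat.mod_lt _ (md_pos hF), h2, h3⟩
  · rintro ⟨h1, -, h2, h3⟩
    exact ⟨h1, h2, h3⟩

theorem not_dvd_of_jac {p : ℕ} (hp : p.Prime) {d : ℕ} (h : jacobiSym d p = 1) : ¬ p ∣ d := by
  intro hd
  have h1 : (d : ℤ).gcd p ≠ 1 := by
    intro h2
    have h3 : Nat.gcd d p = 1 := by
      rw [← h2]; rfl
    rw [Nat.gcd_eq_right hd] at h3
    exact hp.one_lt.ne' h3
  haveI : NeZero p := ⟨hp.ne_zero⟩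
  have h2 : jacobiSym d p = 0 := jacobiSym.eq_zero_iff_not_coprime.2 h1
  rw [h2] at h
  norm_num at h

/-- the symbol of the squarefree part -/
theorem jac_sq {p : ℕ} (hp : p.Prime) {s : ℕ} (hs : ¬ p ∣ s) (z : ℤ) :
    jacobiSym (z * (s : ℤ) ^ 2) p = jacobiSym z p := by
  have h1 : (s : ℤ).gcd p = 1 := by
    have : Nat.gcd s p = 1 := ((Nat.Prime.coprime_iff_not_dvd hp).2 hs).symm
    rw [← this]; rfl
  rw [jacobiSym.mul_left, jacobiSym.sq_one' h1, mul_one]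

theorem odd_sq8 {s : ℕ} (hs : s % 2 = 1) : s ^ 2 % 8 = 1 := by
  have h : s % 8 = 1 ∨ s % 8 = 3 ∨ s % 8 = 5 ∨ s % 8 = 7 := by omega
  rw [pow_two, Nat.mul_mod]
  rcases h with h | h | h | h <;> rw [h]

theorem mod8 {m s N : ℕ} (h : m * s ^ 2 = N) (hN : N % 2 = 1) : m % 8 = N % 8 := by
  have hs : s % 2 = 1 := by
    by_contra h0
    have h1 : 2 ∣ s := by omega
    have h2 : 2 ∣ N := by rw [← h]; exact (h1.pow two_ne_zero).mul_left m |>.trans dvd_rfl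
    omega
  have h1 := odd_sq8 hs
  rw [← h, Nat.mul_mod, h1, mul_one, Nat.mod_mod]

theorem t3 {F : Finset (ℤ × ℤ)} {n d : ℕ} (hn : n ∈ NF F) (hd : Dc F d) : sfp (n * d) ∈ NF F := by
  obtain ⟨n1, n8, nA⟩ := hn
  obtain ⟨d1, d8, dJ⟩ := hd
  have hpos : 0 < n * d := Nat.mul_pos (Nat.pos_of_ne_zero n1.ne_zero) (Nat.pos_of_ne_zero d1.ne_zero)
  obtain ⟨s, s0, hs, -, m1⟩ := sfp_spec hpos
  obtain ⟨m, hm⟩ : ∃ m, m = sfp (n * d) := ⟨_, rfl⟩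
  rw [← hm] at hs m1 ⊢
  have h8 : n * d % 8 = 3 := by rw [Nat.mul_mod, n8, d8]
  have m8 : m % 8 = 3 := by rw [mod8 hs (by omega), h8]
  have key : ∀ c ∈ F, ∀ p : ℕ, p.Prime → p ≠ 2 →
      ((p : ℤ) ∣ c.1 * c.2 ∨ (p : ℤ) ∣ c.1 ^ 2 - c.2 ^ 2) →
      jacobiSym (-(m : ℤ)) p = jacobiSym (-(n : ℤ)) p ∧ jacobiSym (m : ℤ) p = jacobiSym (n : ℤ) p := by
    intro c hc p hp hp2 hdv
    have hj := dJ c hc p hp hp2 hdv
    have hpd := not_dvd_of_jac hp hj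
    have hps : ¬ p ∣ s := by
      intro h
      have h1 : p ^ 2 ∣ n * d := by rw [← hs]; exact (pow_dvd_pow_of_dvd h 2).mul_left m
      have h2 : Nat.Coprime (p ^ 2) d := Nat.Coprime.pow_left 2 ((Nat.Prime.coprime_iff_not_dvd hp).2 hpd)
      have h3 : p * p ∣ n := by rw [← pow_two]; exact h2.dvd_of_dvd_mul_right h1
      exact hp.not_isUnit (n1 p h3)
    have e : (m : ℤ) * (s : ℤ) ^ 2 = (n : ℤ) * d := by exact_mod_cast hs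
    constructor
    · rw [← jac_sq hp hps (-(m : ℤ)), neg_mul, e, ← neg_mul, jacobiSym.mul_left, hj, mul_one]
    · rw [← jac_sq hp hps (m : ℤ), e, jacobiSym.mul_left, hj, mul_one]
  refine ⟨m1, m8, fun c hc => ?_⟩
  obtain ⟨-, -, a1, a2, a3, a4, a5, a6⟩ := nA c hc
  exact ⟨m1, m8, a1, a2, a3, a4,
    fun p hp hp2 h => by rw [(key c hc p hp hp2 (Or.inl h)).1]; exact a5 p hp hp2 h,
    fun p hp hp2 h => by rw [(key c hc p hp hp2 (Or.inr h)).2]; exact a6 p hp hp2 h⟩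

theorem t4 {F : Finset (ℤ × ℤ)} {d e : ℕ} (hd : Dc F d) (he : Dc F e) : Dc F (sfp (d * e)) := by
  obtain ⟨d1, d8, dJ⟩ := hd
  obtain ⟨e1, e8, eJ⟩ := he
  have hpos : 0 < d * e := Nat.mul_pos (Nat.pos_of_ne_zero d1.ne_zero) (Nat.pos_of_ne_zero e1.ne_zero)
  obtain ⟨s, s0, hs, -, m1⟩ := sfp_spec hpos
  obtain ⟨m, hm⟩ : ∃ m, m = sfp (d * e) := ⟨_, rfl⟩
  rw [← hm] at hs m1 ⊢
  have h8 : d * e % 8 = 1 := by rw [Nat.mul_mod, d8, e8]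
  refine ⟨m1, by rw [mod8 hs (by omega), h8], fun c hc p hp hp2 hdv => ?_⟩
  have j1 := dJ c hc p hp hp2 hdv
  have j2 := eJ c hc p hp hp2 hdv
  have hps : ¬ p ∣ s := by
    intro h
    have h1 : p ∣ d * e := by rw [← hs]; exact ((dvd_pow h two_ne_zero)).mul_left m
    rcases (Nat.Prime.dvd_mul hp).1 h1 with h | h
    · exact not_dvd_of_jac hp j1 h
    · exact not_dvd_of_jac hp j2 h
  have ee : (m : ℤ) * (s : ℤ) ^ 2 = (d : ℤ) * e := by exact_mod_cast hs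
  rw [← jac_sq hp hps (m : ℤ), ee, jacobiSym.mul_left, j1, j2, mul_one]

theorem t5 (F : Finset (ℤ × ℤ)) (hF : ∀ c ∈ F, Pr c) : ∃ n, n ∈ NF F := by
  obtain ⟨c, hc, X₀, h⟩ := t_LOW F hF
  have h1 := h (X₀ + 1) (by omega)
  have h2 : (0 : ℝ) < c * ((X₀ + 1 : ℕ) : ℝ) := by positivity
  have h3 : (0 : ℝ) < (((Icc 1 (X₀ + 1)).filter fun n => n ∈ NF F).card : ℝ) := h2.trans_le h1
  have h4 : 0 < ((Icc 1 (X₀ + 1)).filter fun n => n ∈ NF F).card := by exact_mod_cast h3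
  obtain ⟨n, hn⟩ := card_pos.1 h4
  exact ⟨n, (mem_filter.1 hn).2⟩

end Pool.Agent.N873.MF.CL

namespace Pool.Agent.N873.MF

open CL

/-- **MF-CL.** -/
theorem t_CL : S_CL := by
  intro F hF
  exact ⟨⟨_, Pool.Agent.N873.UT.TR.md_pos hF, _, Pool.Agent.N873.UT.TR.mem_NF F hF⟩,
    ⟨_, Pool.Agent.N873.UT.TR.md_pos hF, _, Dc_iff F hF⟩, fun n d => t3, fun d e => t4, t5 F hF⟩

end Pool.Agent.N873.MF
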