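import Pool.Agent.N873.MF.Stm
import Pool.Agent.N873.UT.Fin

/-!
# MF-FLD: the curves over the multiquadratic fields
-/

set_option autoImplicit false
set_option linter.unusedVariables false

open scoped Classical

namespace Pool.Agent.N873.MF

open Finset NumberField Filter
open Pool.Agent.TH841.SH.D (Sha)
open Pool.Agent.N856.JL (sfp)
open Pool.Agent.N873.UT (NF Pr Adm Triv EQ Em)

namespace FLD

open WeierstrassCurve
open Pool.Agent.W307.RT (Sh)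
open Pool.Agent.N875.X15 (Fin2 fin2_pow)

lemma nat_sfp {N : ℕ} (h : 0 < N) : ∃ s : ℕ, 0 < s ∧ sfp N * s ^ 2 = N ∧ 0 < sfp N := by
  obtain ⟨s, h1, h2, h3, -⟩ := Pool.Agent.N856.JL.sfp_spec h
  exact ⟨s, h1, h2, h3⟩

lemma a_ne {c : ℤ × ℤ} (hc : Pr c) : c.1 ≠ 0 := by
  intro h
  have := hc.2.1
  rw [h] at this
  norm_num at this

lemma ab_ne {c : ℤ × ℤ} (hc : Pr c) : c.1 ^ 2 - c.2 ^ 2 ≠ 0 := by
  intro h
  have h1 : c.1 ^ 2 % 2 = 1 := by rw [pow_two, Int.mul_emod, hc.2.1]; norm_num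
  have h2 : c.2 ^ 2 % 2 = 0 := by rw [pow_two, Int.mul_emod, hc.2.2.1]; norm_num
  omega

lemma disc_eq (n : ℤ) (c : ℤ × ℤ) : 4 * cA n c ^ 3 + 27 * cB n c ^ 2 =
    -(9 ^ 6 * n ^ 6 * c.1 ^ 4 * c.2 ^ 4 * (c.1 ^ 2 - c.2 ^ 2) ^ 2) := by
  unfold cA cB
  ring

lemma disc_ne {n : ℤ} {c : ℤ × ℤ} (hc : Pr c) (hn : n ≠ 0) : 4 * cA n c ^ 3 + 27 * cB n c ^ 2 ≠ 0 := by
  rw [disc_eq]
  have h1 := a_ne hc
  have h2 := hc.2.2.2
  have h3 := ab_ne hc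
  exact neg_ne_zero.2 (mul_ne_zero (mul_ne_zero (mul_ne_zero (mul_ne_zero (by norm_num)
    (pow_ne_zero _ hn)) (pow_ne_zero _ h1)) (pow_ne_zero _ h2)) (pow_ne_zero _ h3))

lemma root (n : ℤ) (c : ℤ × ℤ) : (-3 * n * (c.1 ^ 2 + c.2 ^ 2)) ^ 3 +
    cA n c * (-3 * n * (c.1 ^ 2 + c.2 ^ 2)) + cB n c = 0 := by
  unfold cA cB
  ring

lemma EQ_Δ {m : ℤ} {c : ℤ × ℤ} (hc : Pr c) (hm : m ≠ 0) : (EQ m c.1 c.2).Δ ≠ 0 := by
  have e : (EQ m c.1 c.2).Δ =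
      ((16 * m ^ 6 * c.1 ^ 4 * c.2 ^ 4 * (c.1 ^ 2 - c.2 ^ 2) ^ 2 : ℤ) : ℚ) := by
    rw [map_Δ]
    simp only [Em, WeierstrassCurve.Δ, WeierstrassCurve.b₂, WeierstrassCurve.b₄,
      WeierstrassCurve.b₆, WeierstrassCurve.b₈, eq_intCast]
    push_cast
    ring
  rw [e]
  have h1 := a_ne hc
  have h2 := hc.2.2.2
  have h3 := ab_ne hc
  have : (16 * m ^ 6 * c.1 ^ 4 * c.2 ^ 4 * (c.1 ^ 2 - c.2 ^ 2) ^ 2 : ℤ) ≠ 0 :=
    mul_ne_zero (mul_ne_zero (mul_ne_zero (mul_ne_zero (by norm_num)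
    (pow_ne_zero _ hm)) (pow_ne_zero _ h1)) (pow_ne_zero _ h2)) (pow_ne_zero _ h3)
  exact_mod_cast this

/-- the change of variables -/
lemma vr {n D m s : ℤ} (c : ℤ × ℤ) (hs : s ≠ 0) (h : n * D = m * s ^ 2) :
    Pool.Agent.Y700.VR (Sh (cA n c * D ^ 2) (cB n c * D ^ 3)) (EQ m c.1 c.2)
      (3 * (s : ℚ)) (-3 * m * (c.1 ^ 2 + c.2 ^ 2) * s ^ 2) 0 0 := by
  have hsq : (s : ℚ) ≠ 0 := by exact_mod_cast hs
  have hq : (n : ℚ) * D = m * s ^ 2 := by exact_mod_cast h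
  have eA : ((cA n c * D ^ 2 : ℤ) : ℚ) =
      -27 * ((c.1 : ℚ) ^ 4 - c.1 ^ 2 * c.2 ^ 2 + c.2 ^ 4) * (m * s ^ 2) ^ 2 := by
    rw [← hq]
    unfold cA
    push_cast
    ring
  have eB : ((cB n c * D ^ 3 : ℤ) : ℚ) =
      27 * ((c.1 : ℚ) ^ 2 + c.2 ^ 2) * (2 * c.1 ^ 2 - c.2 ^ 2) * (2 * c.2 ^ 2 - c.1 ^ 2) *
        (m * s ^ 2) ^ 3 := by
    rw [← hq]
    unfold cB
    push_cast
    ring
  refine ⟨mul_ne_zero (by norm_num) hsq, ?_, ?_, ?_, ?_, ?_⟩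
  · simp [Em, Sh]
  · simp only [Em, Sh, map_a₂, eq_intCast]
    push_cast
    ring
  · simp [Em, Sh]
  · simp only [Em, Sh, map_a₄, eq_intCast]
    rw [eA]
    push_cast
    ring
  · simp only [Em, Sh, map_a₆, eq_intCast]
    rw [eA, eB]
    push_cast
    ring

lemma fin2_of_triv {n : ℕ} {a b : ℤ} (h : Triv n a b) : Fin2 (EQ n a b) :=
  ⟨h.1, fun x hx => h.2 1 x (by rw [pow_one, two_nsmul]; exact hx)⟩

end FLD

open FLD in
theorem t_FLD : S_FLD := by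
  intro c hc n r d hn hd hA K _ _ x hx hK
  have hn0 : (n : ℤ) ≠ 0 := by exact_mod_cast hn.ne'
  have hdisc := disc_ne hc hn0
  obtain ⟨d', hd'⟩ : ∃ d' : Fin r → ℤ, ∀ i, d' i = (d i : ℤ) := ⟨fun i => (d i : ℤ), fun _ => rfl⟩
  have hd0 : ∀ i, d' i ≠ 0 := fun i => by
    rw [hd']
    exact_mod_cast (hd i).ne'
  have hx' : ∀ i, x i ^ 2 = (d' i : K) := fun i => by
    rw [hx, hd']
    simp
  have hprod : ∀ T : Finset (Fin r), ∏ i ∈ T, d' i = ((∏ i ∈ T, d i : ℕ) : ℤ) := fun T => by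
    push_cast
    exact prod_congr rfl fun i _ => hd' i
  have key : ∀ T : Finset (Fin r), ∃ s : ℤ, s ≠ 0 ∧ ((sfp (n * ∏ i ∈ T, d i) : ℕ) : ℤ) ≠ 0 ∧
      (n : ℤ) * ∏ i ∈ T, d' i = ((sfp (n * ∏ i ∈ T, d i) : ℕ) : ℤ) * s ^ 2 := by
    intro T
    have hpos : 0 < n * ∏ i ∈ T, d i := Nat.mul_pos hn (Finset.prod_pos fun i _ => hd i)
    obtain ⟨s, h1, h2, h3⟩ := nat_sfp hpos
    refine ⟨s, by exact_mod_cast h1.ne', by exact_mod_cast h3.ne', ?_⟩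
    rw [hprod]
    exact_mod_cast h2.symm
  have hfgK := Pool.Agent.Y687.MQ.fg_gen K hdisc
  have hrk := Pool.Agent.Y687.MQ.rank_gen K d' x hx' hK hd0 hdisc hfgK
  have heq : ∀ T : Finset (Fin r), Module.finrank ℤ (Pool.Agent.Y19.QT.EQ
      (cA n c * (∏ i ∈ T, d' i) ^ 2) (cB n c * (∏ i ∈ T, d' i) ^ 3)) =
      Module.finrank ℤ (EQ (sfp (n * ∏ i ∈ T, d i)) c.1 c.2).toAffine.Point := by
    intro T
    obtain ⟨s, hs, hm, h⟩ := key T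
    have e := (vr c hs h).equiv (EQ_Δ hc hm)
    exact (LinearEquiv.finrank_eq e.toIntLinearEquiv).symm
  have hrank : Module.finrank ℤ (EK K n c).toAffine.Point ≤
      ∑ T : Finset (Fin r), Module.finrank ℤ (EQ (sfp (n * ∏ i ∈ T, d i)) c.1 c.2).toAffine.Point := by
    rw [← Finset.sum_congr rfl fun T _ => heq T]
    unfold Pool.Agent.Y19.QT.rkK at hrk
    change Module.finrank ℤ (Pool.Agent.Y19.QT.EK K (cA n c) (cB n c)) ≤ _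
    convert hrk
  refine ⟨hrank, fun hT => ?_⟩
  have hF2 : ∀ T : Finset (Fin r), Pool.Agent.N875.X15.Fin2 (Pool.Agent.W307.RT.Sh
      (cA n c * (∏ i ∈ T, d' i) ^ 2) (cB n c * (∏ i ∈ T, d' i) ^ 3)) := by
    intro T
    obtain ⟨s, hs, hm, h⟩ := key T
    have hTR : Pool.Agent.Z702.S_TRN := Pool.Agent.Z932.Z702.t_TRN
    obtain ⟨h1, h2, -⟩ := hTR _ _ _ _ _ _ (vr c hs h) (EQ_Δ hc hm)
    have h3 := fin2_of_triv (hT T)
    exact ⟨h1.2 h3.1, h2.2 h3.2⟩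
  refine ⟨?_, ?_⟩
  · have h0 : ∀ T : Finset (Fin r), Module.finrank ℤ
        (EQ (sfp (n * ∏ i ∈ T, d i)) c.1 c.2).toAffine.Point = 0 := fun T =>
      Pool.Agent.N875.X15.fin2_rank (fin2_of_triv (hT T))
    rw [Finset.sum_eq_zero fun T _ => h0 T] at hrank
    have h2 : Module.finrank ℤ (EK K n c).toAffine.Point = 0 := Nat.le_zero.1 hrank
    have hf' : Module.Finite ℤ (EK K n c).toAffine.Point := by
      unfold Pool.Agent.Y19.QT.FinGenK at hfgK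
      change Module.Finite ℤ (Pool.Agent.Y19.QT.EK K (cA n c) (cB n c))
      convert hfgK
    exact Module.finite_of_fg_torsion _ (Module.finrank_eq_zero_iff_isTorsion.1 h2)
  · have hkl : Pool.Agent.Y723.QT.Kl
        (Pool.Agent.TH841.NF.D.Sha (Pool.Agent.TH841.NF.EF (cA n c) (cB n c) K)) (r + 0) := by
      refine Pool.Agent.Y723.QT.base_kl (r := x) (d := fun i => (d' i : ℚ)) (fun i => ?_)
        (fun i => by exact_mod_cast hd0 i) hK fun T => ?_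
      · rw [hx' i, map_intCast]
      · rw [Pool.Agent.TH841.NF.tw_Sh]
        intro j y hy
        have h1 := hF2 T
        rw [mul_comm (cA n c), mul_comm (cB n c)] at h1
        rw [Pool.Agent.N875.X15.fin2_pow h1 j y hy, smul_zero]
    rw [add_zero] at hkl
    refine ⟨?_, hkl⟩
    exact (Pool.Agent.Y723.QT.f2_iff (Pool.Agent.Y723.QT.tf_EF (F := K) hdisc (root n c))).2 ⟨r, hkl⟩

end Pool.Agent.N873.MF
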