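import Mathlib
import Pool.Agent.N873.UT.Parts2
import Pool.Agent.N856.JM.Law
import Pool.Agent.N856.JT.Cls
import Pool.Agent.N856.JL.Fld

/-!
# Project MF (helper873): simultaneous twists of all the curves with a subgroup `Z/2 x Z/4` over real
multiquadratic fields

Continuation of project UT (`Pool/Agent/N873/UT`): `NF F` is the set of the twists, `E = EQ n a b`,
`Triv n a b` (finite group, `Ш[2 ^ ∞] = 0`) holds for one, equivalently for all pairs of `F` if and only if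
`Qc n`. Here the curves are considered over the fields `ℚ(√d_1, …, √d_r)` for `d_i` in `Dc F`. The factors of
the restriction of scalars are the curves `EQ m a b` with `m` the squarefree part of `n ∏_{i ∈ T} d_i`.
Statements of the parts. They are independent of each other.
-/

set_option autoImplicit false
set_option linter.unusedVariables false

open scoped Classical

namespace Pool.Agent.N873.MF

open Finset NumberField Filter
open Pool.Agent.TH841.SH.D (Sha)
open Pool.Agent.N969.P15 (Qc)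
open Pool.Agent.N916.GB (eta)
open Pool.Agent.N856.JL (sfp)
open Pool.Agent.N856.JL.Av (count HasDensity)
open Pool.Agent.N873.UT (NF Pr Adm Triv EQ Em)

/-- the discriminants: `d ≡ 1` modulo `8`, and `d` is a nonzero square modulo all the odd primes dividing
`a b (a² - b²)` for a pair `(a, b)` of `F` -/
def Dc (F : Finset (ℤ × ℤ)) (d : ℕ) : Prop := Squarefree d ∧ d % 8 = 1 ∧
  ∀ c ∈ F, ∀ p : ℕ, p.Prime → p ≠ 2 → ((p : ℤ) ∣ c.1 * c.2 ∨ (p : ℤ) ∣ c.1 ^ 2 - c.2 ^ 2) →
    jacobiSym d p = 1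

/-- MF-CL: the classes. The set `NF F` is a union of residue classes (`Pool.Agent.N873.UT.TR`, `mem_NF`), and
so is `Dc F`: the modulus is `8 ∏ |a b (a² - b²)|` (note that `a² ≠ b²` and `a b ≠ 0` for the pairs of `F`: `a`
odd, `b ≠ 0` even). For the squarefree part `m = sfp (n d)`: `n d = m s²`, `s²` divides `n d`, so `s` is odd and prime
to the odd primes dividing `a b (a² - b²)` (such a prime does not divide `d`, since `jacobiSym d p = 1`, and
`p²` does not divide `n`). The last part follows from `Pool.Agent.N873.UT.LOW`. -/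
def S_CL : Prop := ∀ F : Finset (ℤ × ℤ), (∀ c ∈ F, Pr c) →
  (∃ M : ℕ, 0 < M ∧ ∃ K : Finset ℕ, ∀ n, n ∈ NF F ↔ Squarefree n ∧ n % M ∈ K) ∧
  (∃ M : ℕ, 0 < M ∧ ∃ K : Finset ℕ, ∀ d, Dc F d ↔ Squarefree d ∧ d % M ∈ K) ∧
  (∀ n d, n ∈ NF F → Dc F d → sfp (n * d) ∈ NF F) ∧
  (∀ d e, Dc F d → Dc F e → Dc F (sfp (d * e))) ∧
  ∃ n, n ∈ NF F

/-- MF-GL: the joint law without coprimality. Let `r` be the product of the primes dividing the elements of
`W`. For `g ∣ r` let `P_g` be the part of the class `P` with `gcd(n, r) = g`: the `n = g m`, `m` squarefree,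
prime to `r`, `g m % M ∈ K`; a union of residue classes modulo `M r` for `m`. For such `n = g m` and
`c ∈ W`: `sfp (c n) = sfp (c g) m`. The numbers `sfp (c g)`, `c ∈ W`, are different (if `sfp (c g) = sfp (c' g)` then
`c c'` is a square), odd, prime to `m`, and `m sfp (c g) ≡ c n ≡ 3` modulo `4` (odd squares are `1` modulo `4`). So
`Pool.Agent.N856.JM.law` (applied with `I := W`) gives the density `η ^ #W` for each nonempty `P_g`; by
`Pool.Agent.N856.JT.dens_mul`, `dens_iff` and the sum over the finitely many `g` the claim follows (compare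
`Pool.Agent.N856.JT.law_TwO`). -/
def S_GL : Prop := ∀ (M : ℕ), 0 < M → ∀ (K : Finset ℕ) (P : ℕ → Prop),
  (∀ n, P n ↔ Squarefree n ∧ n % M ∈ K) → (∃ n₀, P n₀) → (∀ n, P n → n % 2 = 1) →
  ∀ W : Finset ℕ, (∀ c ∈ W, Squarefree c ∧ c % 2 = 1 ∧ ∀ n, P n → (n * c) % 4 = 3) →
  HasDensity P (fun n => ∀ c ∈ W, Qc (sfp (c * n))) (eta ^ W.card)

/-- the coefficient `A` of the short equation `y² = x³ + A x + B` of `y² = x (x - n a²) (x - n b²)` -/
def cA (n : ℤ) (c : ℤ × ℤ) : ℤ := -27 * (c.1 ^ 4 - c.1 ^ 2 * c.2 ^ 2 + c.2 ^ 4) * n ^ 2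

/-- the coefficient `B`. The roots of `x³ + A x + B` are `-3 n (a² + b²)`, `3 n (2 a² - b²)`, `3 n (2 b² - a²)`. -/
def cB (n : ℤ) (c : ℤ × ℤ) : ℤ :=
  27 * (c.1 ^ 2 + c.2 ^ 2) * (2 * c.1 ^ 2 - c.2 ^ 2) * (2 * c.2 ^ 2 - c.1 ^ 2) * n ^ 3

/-- the curve over the field `K` -/
def EK (K : Type) [Field K] (n : ℤ) (c : ℤ × ℤ) : WeierstrassCurve K :=
  ⟨0, 0, 0, (cA n c : K), (cB n c : K)⟩

/-- MF-FLD: the curves over the fields. Compare `Pool/Agent/N856/JL/Fld.lean` (`field`, `shaK`), where this is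
done for the twists of `X_0(15)`: `Pool.Agent.Y687.MQ.rank_gen` and `fg_gen` (rank over the field),
`Pool.Agent.Y723.QT.base_kl`, `f2_iff`, `tf_EF` (`Ш` over the field). Over `ℚ`: the substitution
`x = 9 X - 3 n (a² + b²)` (`Pool.Agent.Y700.VR`, `Z702.S_TRN`; for the rank use the isomorphism
of the groups of points in `Pool/Agent/Y700/VC.lean`) and the scaling by `s`, `n ∏ d_i = m s²`. -/
def S_FLD : Prop := ∀ (c : ℤ × ℤ), Pr c → ∀ (n r : ℕ) (d : Fin r → ℕ), 0 < n → (∀ i, 0 < d i) →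
  (∀ T : Finset (Fin r), Adm (sfp (n * ∏ i ∈ T, d i)) c.1 c.2) →
  ∀ (K : Type) [Field K] [NumberField K] (x : Fin r → K), (∀ i, x i ^ 2 = (d i : K)) →
  IntermediateField.adjoin ℚ (Set.range x) = ⊤ →
  Module.finrank ℤ (EK K n c).toAffine.Point ≤
    ∑ T : Finset (Fin r), Module.finrank ℤ (EQ (sfp (n * ∏ i ∈ T, d i)) c.1 c.2).toAffine.Point ∧
  ((∀ T : Finset (Fin r), Triv (sfp (n * ∏ i ∈ T, d i)) c.1 c.2) →
    Finite (EK K n c).toAffine.Point ∧
    {y : Pool.Agent.TH841.NF.D.Sha (EK K n c) | ∃ k : ℕ, (2 ^ k : ℕ) • y = 0}.Finite ∧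
    ∀ (k : ℕ) (y : Pool.Agent.TH841.NF.D.Sha (EK K n c)), (2 ^ k : ℕ) • y = 0 → (2 ^ r : ℕ) • y = 0)

end Pool.Agent.N873.MF
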