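import Mathlib
import Pool.Agent.N873.MF.Stm
import Pool.Agent.N856.JL.All2

/-!
# Project MF (helper873): assembly
-/

set_option autoImplicit false
set_option linter.unusedVariables false

open scoped Classical

namespace Pool.Agent.N873.MF

open Finset NumberField Filter
open Pool.Agent.N969.P15 (Qc)
open Pool.Agent.N916.GB (eta eta_bounds)
open Pool.Agent.N856.JL (sfp sfp_spec sfp_pos sfp_sqf sfp_mul_sq sfp_self)
open Pool.Agent.N856.JL.All (sfp_mul_left sfp_inj_mul)
open Pool.Agent.N856.JL.Av (count HasDensity dens_congr)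
open Pool.Agent.N873.UT (NF Pr Adm Triv EQ Em)

/-- the parts -/
structure Parts : Prop where
  cl : S_CL
  gl : S_GL
  fld : S_FLD

/-- independence modulo squares -/
def Ind {r : ℕ} (d : Fin r → ℕ) : Prop :=
  ∀ T : Finset (Fin r), T.Nonempty → ¬ IsSquare (∏ i ∈ T, d i)

/-- the good numbers -/
def Gd {r : ℕ} (d : Fin r → ℕ) (n : ℕ) : Prop := ∀ T : Finset (Fin r), Qc (sfp (n * ∏ i ∈ T, d i))

theorem sfp_inj {r : ℕ} {d : Fin r → ℕ} (hp : ∀ T : Finset (Fin r), 0 < ∏ i ∈ T, d i) (hi : Ind d) :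
    Function.Injective fun T : Finset (Fin r) => sfp (∏ i ∈ T, d i) := by
  intro T S h
  have h' : sfp (∏ i ∈ T, d i) = sfp (∏ i ∈ S, d i) := h
  obtain ⟨s, hs, h2, -⟩ := sfp_spec (hp T)
  obtain ⟨t, ht, h3, -⟩ := sfp_spec (hp S)
  by_contra hne
  have hsd : (symmDiff T S).Nonempty := by
    rw [Finset.nonempty_iff_ne_empty]
    intro h0
    exact hne (symmDiff_eq_bot.1 h0)
  refine hi _ hsd ?_
  have h4 : (∏ i ∈ T, d i) * (∏ i ∈ S, d i) =
      (∏ i ∈ symmDiff T S, d i) * (∏ i ∈ T ∩ S, d i) ^ 2 := by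
    have e1 : ∏ i ∈ T, d i = (∏ i ∈ T \ S, d i) * ∏ i ∈ T ∩ S, d i := by
      rw [← prod_union (disjoint_sdiff_inter T S), sdiff_union_inter]
    have e2 : ∏ i ∈ S, d i = (∏ i ∈ S \ T, d i) * ∏ i ∈ T ∩ S, d i := by
      rw [inter_comm, ← prod_union (disjoint_sdiff_inter S T), sdiff_union_inter]
    have e3 : ∏ i ∈ symmDiff T S, d i = (∏ i ∈ T \ S, d i) * ∏ i ∈ S \ T, d i := by
      have : symmDiff T S = (T \ S) ∪ (S \ T) := rfl
      rw [this, prod_union]
      exact disjoint_sdiff_sdiff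
    rw [e1, e2, e3]
    ring
  have h5 : (sfp (∏ i ∈ T, d i) * s * t) ^ 2 =
      (∏ i ∈ symmDiff T S, d i) * (∏ i ∈ T ∩ S, d i) ^ 2 := by
    have e : (∏ i ∈ T, d i) * (∏ i ∈ S, d i) =
        (sfp (∏ i ∈ T, d i) * s ^ 2) * (sfp (∏ i ∈ S, d i) * t ^ 2) := by rw [h2, h3]
    rw [← h4, e, ← h']
    ring
  have h6 : (∏ i ∈ T ∩ S, d i) ^ 2 ∣ (sfp (∏ i ∈ T, d i) * s * t) ^ 2 := ⟨_, by rw [h5]; ring⟩
  obtain ⟨u, hu⟩ := (Nat.pow_dvd_pow_iff two_ne_zero).1 h6
  rw [hu, mul_pow, mul_comm] at h5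
  have h7 := Nat.eq_of_mul_eq_mul_right (pow_pos (hp (T ∩ S)) 2) h5
  exact ⟨u, by rw [← h7]; ring⟩

section one

variable {F : Finset (ℤ × ℤ)} {r : ℕ} {d : Fin r → ℕ}

theorem pos_prod (hd : ∀ i, Dc F (d i)) (T : Finset (Fin r)) : 0 < ∏ i ∈ T, d i :=
  prod_pos fun i _ => Nat.pos_of_ne_zero (hd i).1.ne_zero

theorem dc_prod (P : Parts) (hF : ∀ c ∈ F, Pr c) (hd : ∀ i, Dc F (d i)) (T : Finset (Fin r)) :
    Dc F (sfp (∏ i ∈ T, d i)) := by
  obtain ⟨-, -, -, h4, -⟩ := P.cl F hF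
  induction T using Finset.induction_on with
  | empty =>
    rw [prod_empty, sfp_self squarefree_one]
    exact ⟨squarefree_one, rfl, fun c _ p _ _ _ => by rw [Nat.cast_one, jacobiSym.one_left]⟩
  | insert a T ha ih =>
    rw [prod_insert ha, mul_comm, sfp_mul_left (pos_prod hd T) (Nat.pos_of_ne_zero (hd a).1.ne_zero)]
    exact h4 _ _ ih (hd a)

theorem nf_prod (P : Parts) (hF : ∀ c ∈ F, Pr c) (hd : ∀ i, Dc F (d i)) {n : ℕ} (hn : n ∈ NF F)
    (T : Finset (Fin r)) : sfp (n * ∏ i ∈ T, d i) ∈ NF F := by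
  obtain ⟨-, -, h3, -, -⟩ := P.cl F hF
  rw [mul_comm, sfp_mul_left (pos_prod hd T) (Nat.pos_of_ne_zero hn.1.ne_zero), mul_comm]
  exact h3 _ _ hn (dc_prod P hF hd T)

theorem swap {n x : ℕ} (hn : 0 < n) (hx : 0 < x) : sfp (sfp x * n) = sfp (n * x) := by
  rw [← sfp_mul_left hx hn, mul_comm]

/-- **fixed field, varying curve** -/
theorem dens_n (P : Parts) (hF : ∀ c ∈ F, Pr c) (hd : ∀ i, Dc F (d i)) (hi : Ind d) :
    HasDensity (fun n => n ∈ NF F) (Gd d) (eta ^ 2 ^ r) := by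
  obtain ⟨⟨M, hM, K, hK⟩, -, -, -, hne⟩ := P.cl F hF
  have hinj := sfp_inj (pos_prod hd) hi
  have hcard : (univ.image fun T : Finset (Fin r) => sfp (∏ i ∈ T, d i)).card = 2 ^ r := by
    rw [card_image_of_injective _ hinj, card_univ, Fintype.card_finset, Fintype.card_fin]
  have h := P.gl M hM K (fun n => n ∈ NF F) hK hne (fun n hn => by
    have := hn.2.1
    omega) (univ.image fun T : Finset (Fin r) => sfp (∏ i ∈ T, d i)) (fun c hc => by
    obtain ⟨T, -, rfl⟩ := mem_image.1 hc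
    obtain ⟨g1, g2, -⟩ := dc_prod P hF hd T
    refine ⟨g1, by omega, fun n hn => ?_⟩
    have g3 : n % 8 = 3 := hn.2.1
    have g4 : n % 4 = 3 := by omega
    have g5 : sfp (∏ i ∈ T, d i) % 4 = 1 := by omega
    rw [Nat.mul_mod, g4, g5])
  rw [hcard] at h
  refine dens_congr (fun _ => Iff.rfl) (fun n hn => ?_) h
  have hn0 : 0 < n := Nat.pos_of_ne_zero hn.1.ne_zero
  constructor
  · intro g T
    have := g _ (mem_image_of_mem _ (mem_univ T))
    rwa [swap hn0 (pos_prod hd T)] at this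
  · intro g c hc
    obtain ⟨T, -, rfl⟩ := mem_image.1 hc
    rw [swap hn0 (pos_prod hd T)]
    exact g T

/-- the patterns -/
theorem dens_pat (P : Parts) (hF : ∀ c ∈ F, Pr c) (hd : ∀ i, Dc F (d i)) (hi : Ind d)
    (V : Finset (Finset (Fin r))) :
    HasDensity (fun n => n ∈ NF F)
      (fun n => ∀ T : Finset (Fin r), (Qc (sfp (n * ∏ i ∈ T, d i)) ↔ T ∈ V))
      (eta ^ V.card * (1 - eta) ^ (2 ^ r - V.card)) := by
  obtain ⟨⟨M, hM, K, hK⟩, -, -, -, n₀, hne⟩ := P.cl F hF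
  have hinj := sfp_inj (pos_prod hd) hi
  set f := fun T : Finset (Fin r) => sfp (∏ i ∈ T, d i) with hf
  have hcard : (univ.image f).card = 2 ^ r := by
    rw [card_image_of_injective _ hinj, card_univ, Fintype.card_finset, Fintype.card_fin]
  have h := Pool.Agent.N856.JT.pattern (P := fun n => n ∈ NF F) (m := n₀)
    (Nat.pos_of_ne_zero hne.1.ne_zero) hne (R := fun c n => Qc (sfp (c * n))) (η := eta)
    (T := univ.image f) (fun W hW _ => P.gl M hM K (fun n => n ∈ NF F) hK ⟨n₀, hne⟩ (fun n hn => by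
      have := hn.2.1
      omega) W (fun c hc => by
      obtain ⟨T, -, rfl⟩ := mem_image.1 (hW hc)
      obtain ⟨g1, g2, -⟩ := dc_prod P hF hd T
      refine ⟨g1, by
        show sfp (∏ i ∈ T, d i) % 2 = 1
        omega, fun n hn => ?_⟩
      have g3 : n % 8 = 3 := hn.2.1
      have g4 : n % 4 = 3 := by omega
      have g5 : sfp (∏ i ∈ T, d i) % 4 = 1 := by omega
      show n * sfp (∏ i ∈ T, d i) % 4 = 3
      rw [Nat.mul_mod, g4, g5])) (V.image f) (image_subset_image (subset_univ V))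
  rw [card_sdiff_of_subset (image_subset_image (subset_univ V)), hcard,
    card_image_of_injective _ hinj] at h
  refine dens_congr (fun _ => Iff.rfl) (fun n hn => ?_) h
  have hn0 : 0 < n := Nat.pos_of_ne_zero hn.1.ne_zero
  constructor
  · intro g T
    have h1 := g (f T) (mem_image_of_mem _ (mem_univ T))
    rw [swap hn0 (pos_prod hd T)] at h1
    rw [h1]
    exact ⟨fun h2 => by
      obtain ⟨S, hS, h3⟩ := mem_image.1 h2
      rwa [← hinj h3], fun h2 => mem_image_of_mem _ h2⟩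
  · intro g c hc
    obtain ⟨T, -, rfl⟩ := mem_image.1 hc
    rw [swap hn0 (pos_prod hd T), g T]
    exact ⟨fun h2 => mem_image_of_mem _ h2, fun h2 => by
      obtain ⟨S, hS, h3⟩ := mem_image.1 h2
      rwa [← hinj h3]⟩

theorem prod_snoc (d : Fin r → ℕ) (D : ℕ) (T : Finset (Fin (r + 1))) :
    ∏ i ∈ T, (Fin.snoc d D : Fin (r + 1) → ℕ) i =
      (∏ i ∈ univ.filter (fun i : Fin r => i.castSucc ∈ T), d i) *
        (if Fin.last r ∈ T then D else 1) := by
  have e1 : ∏ i ∈ T, (Fin.snoc d D : Fin (r + 1) → ℕ) i =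
      ∏ i : Fin (r + 1), if i ∈ T then (Fin.snoc d D : Fin (r + 1) → ℕ) i else 1 := by
    rw [prod_ite_mem, univ_inter]
  rw [e1, Fin.prod_univ_castSucc]
  congr 1
  · rw [prod_filter]
    refine prod_congr rfl fun i _ => ?_
    rw [Fin.snoc_castSucc]
  · rw [Fin.snoc_last]

theorem gd_snoc {n D : ℕ} : Gd (Fin.snoc d D : Fin (r + 1) → ℕ) n ↔
      Gd d n ∧ ∀ T : Finset (Fin r), Qc (sfp (n * (∏ i ∈ T, d i) * D)) := by
  have e1 : ∀ T : Finset (Fin r), univ.filter (fun i : Fin r => i.castSucc ∈ T.map Fin.castSuccEmb) =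
      T := by
    intro T
    ext i
    simp [Fin.castSucc_inj]
  have e2 : ∀ T : Finset (Fin r), Fin.last r ∉ T.map Fin.castSuccEmb := by
    intro T h
    obtain ⟨i, -, hi⟩ := mem_map.1 h
    exact (Fin.castSucc_lt_last i).ne hi
  have e3 : ∀ T : Finset (Fin r), univ.filter (fun i : Fin r => i.castSucc ∈
      insert (Fin.last r) (T.map Fin.castSuccEmb)) = T := by
    intro T
    conv_rhs => rw [← e1 T]
    refine filter_congr fun i _ => ?_
    rw [mem_insert, or_iff_right (Fin.castSucc_lt_last i).ne]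
  constructor
  · intro h
    constructor
    · intro T
      have := h (T.map Fin.castSuccEmb)
      rwa [prod_snoc, e1, if_neg (e2 T), mul_one] at this
    · intro T
      have := h (insert (Fin.last r) (T.map Fin.castSuccEmb))
      rwa [prod_snoc, e3, if_pos (mem_insert_self _ _), ← mul_assoc] at this
  · rintro ⟨h1, h2⟩ T
    rw [prod_snoc]
    split_ifs with h3
    · rw [← mul_assoc]
      exact h2 _
    · rw [mul_one]
      exact h1 _

/-- **fixed curve, varying field** -/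
theorem dens_D (P : Parts) (hF : ∀ c ∈ F, Pr c) (hd : ∀ i, Dc F (d i)) (hi : Ind d) {n : ℕ}
    (hn : n ∈ NF F) (hg : Gd d n) :
    HasDensity (Dc F) (fun D => Gd (Fin.snoc d D : Fin (r + 1) → ℕ) n) (eta ^ 2 ^ r) := by
  obtain ⟨-, ⟨M, hM, K, hK⟩, -, -, -⟩ := P.cl F hF
  have hn0 : 0 < n := Nat.pos_of_ne_zero hn.1.ne_zero
  set f := fun T : Finset (Fin r) => sfp (n * ∏ i ∈ T, d i) with hf
  have hinj : Function.Injective f := by
    intro T S h
    refine sfp_inj (pos_prod hd) hi (a₁ := T) (a₂ := S) ?_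
    have h1 : sfp ((∏ i ∈ T, d i) * n) = sfp ((∏ i ∈ S, d i) * n) := by
      rw [mul_comm _ n, mul_comm _ n]
      exact h
    rw [sfp_mul_left (pos_prod hd T) hn0, sfp_mul_left (pos_prod hd S) hn0] at h1
    exact sfp_inj_mul (sfp_sqf _) (sfp_sqf _) hn0 h1
  have hcard : (univ.image f).card = 2 ^ r := by
    rw [card_image_of_injective _ hinj, card_univ, Fintype.card_finset, Fintype.card_fin]
  have h1 : Dc F 1 := ⟨squarefree_one, rfl, fun c _ p _ _ _ => by
    rw [Nat.cast_one, jacobiSym.one_left]⟩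
  have h := P.gl M hM K (Dc F) hK ⟨1, h1⟩ (fun D hD => by
    have := hD.2.1
    omega) (univ.image f) (fun c hc => by
    obtain ⟨T, -, rfl⟩ := mem_image.1 hc
    obtain ⟨g1, g2, -⟩ := nf_prod P hF hd hn T
    refine ⟨g1, by
      show sfp (n * ∏ i ∈ T, d i) % 2 = 1
      omega, fun D hD => ?_⟩
    have g3 : D % 8 = 1 := hD.2.1
    have g4 : D % 4 = 1 := by omega
    have g5 : sfp (n * ∏ i ∈ T, d i) % 4 = 3 := by omega
    show D * sfp (n * ∏ i ∈ T, d i) % 4 = 3
    rw [Nat.mul_mod, g4, g5])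
  rw [hcard] at h
  refine dens_congr (fun _ => Iff.rfl) (fun D hD => ?_) h
  have hD0 : 0 < D := Nat.pos_of_ne_zero hD.1.ne_zero
  have e : ∀ T : Finset (Fin r), sfp (f T * D) = sfp (n * (∏ i ∈ T, d i) * D) := fun T =>
    (sfp_mul_left (Nat.mul_pos hn0 (pos_prod hd T)) hD0).symm
  rw [gd_snoc]
  constructor
  · intro g
    refine ⟨hg, fun T => ?_⟩
    rw [← e]
    exact g _ (mem_image_of_mem _ (mem_univ T))
  · rintro ⟨-, g⟩ c hc
    obtain ⟨T, -, rfl⟩ := mem_image.1 hc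
    show Qc (sfp (f T * D))
    rw [e]
    exact g T

/-- there are large elements in sets of positive density -/
theorem exists_gt {P Q : ℕ → Prop} {δ : ℝ} (h0 : 0 < δ) (hP : ∀ B : ℕ, ∃ n, B < n ∧ P n)
    (h : HasDensity P Q δ) (B : ℕ) : ∃ n, B < n ∧ P n ∧ Q n := by
  by_contra hcon
  push Not at hcon
  -- the count of `P ∧ Q` is bounded, the count of `P` is not
  have h1 : ∀ X, count (fun m => P m ∧ Q m) X ≤ B := by
    intro X
    unfold Pool.Agent.N856.JL.Av.count
    calc _ ≤ (Icc 1 B).card := card_le_card fun m hm => by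
          simp only [mem_filter, mem_Icc] at hm ⊢
          refine ⟨hm.1.1, ?_⟩
          by_contra hlt
          exact hcon m (not_le.1 hlt) hm.2.1 hm.2.2
      _ = B := by rw [Nat.card_Icc]; omega
  have h2 : Tendsto (fun X : ℕ => (count P X : ℝ)) atTop atTop := by
    refine tendsto_natCast_atTop_atTop.comp ?_
    refine tendsto_atTop_atTop.2 fun k => ?_
    -- `k` different elements
    obtain ⟨f, hf1, hf2⟩ := exists_seq_of_forall_finset_exists (fun x : ℕ => 0 < x ∧ P x)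
      (fun x y => x < y) (fun s hs => by
        obtain ⟨n, h3, h4⟩ := hP (∑ x ∈ s, x)
        refine ⟨n, ⟨by omega, h4⟩, fun x hx => ?_⟩
        have := single_le_sum (f := fun x : ℕ => x) (fun _ _ => Nat.zero_le _) hx
        omega)
    have hmono : StrictMono f := fun a b hab => hf2 a b hab
    refine ⟨f k, fun X hX => ?_⟩
    unfold Pool.Agent.N856.JL.Av.count
    calc k = ((range k).image f).card := by
          rw [card_image_of_injective _ hmono.injective, card_range]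
      _ ≤ _ := card_le_card fun m hm => by
          obtain ⟨i, hi, rfl⟩ := mem_image.1 hm
          rw [mem_range] at hi
          simp only [mem_filter, mem_Icc]
          exact ⟨⟨(hf1 i).1, (hmono hi).le.trans hX⟩, (hf1 i).2⟩
  have h3 : Tendsto (fun X : ℕ => (count (fun m => P m ∧ Q m) X : ℝ) / (count P X : ℝ)) atTop
      (nhds 0) := by
    refine squeeze_zero (fun X => by positivity) (fun X => ?_)
      (tendsto_const_nhds.div_atTop h2 : Tendsto (fun X : ℕ => (B : ℝ) / (count P X : ℝ)) atTop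
        (nhds 0))
    refine div_le_div_of_nonneg_right ?_ (by positivity)
    exact_mod_cast h1 X
  exact h0.ne' (tendsto_nhds_unique h h3)

/-- there are arbitrarily large discriminants -/
theorem dc_gt (F : Finset (ℤ × ℤ)) (hF : ∀ c ∈ F, Pr c) (B : ℕ) :
    ∃ D, B < D ∧ D.Prime ∧ Dc F D := by
  set M : ℕ := 8 * ∏ c ∈ F, (c.1 * c.2 * (c.1 ^ 2 - c.2 ^ 2)).natAbs with hM
  have hM0 : M ≠ 0 := by
    rw [hM]
    refine mul_ne_zero (by norm_num) (prod_ne_zero_iff.2 fun c hc => ?_)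
    obtain ⟨k1, k2, k3, k4⟩ := hF c hc
    rw [Int.natAbs_ne_zero]
    refine mul_ne_zero (mul_ne_zero (by omega) k4) ?_
    intro h
    have h1 : c.1 ^ 2 = c.2 ^ 2 := by linarith
    rcases sq_eq_sq_iff_eq_or_eq_neg.1 h1 with h2 | h2 <;> omega
  obtain ⟨q, hqB, hq, hqk⟩ := Nat.forall_exists_prime_gt_and_modEq B hM0 (Nat.coprime_one_left M)
  refine ⟨q, hqB, hq, hq.squarefree, ?_, fun c hc p hp hp2 hd => ?_⟩
  · have h8 : q % 8 = 1 % 8 := hqk.of_dvd (Dvd.intro _ rfl)
    exact h8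
  · have hpM : p ∣ M := by
      rw [hM]
      refine Dvd.dvd.mul_left ((Int.natCast_dvd.1 ?_).trans (dvd_prod_of_mem
        (fun c : ℤ × ℤ => (c.1 * c.2 * (c.1 ^ 2 - c.2 ^ 2)).natAbs) hc)) 8
      rcases hd with hd | hd
      · exact Dvd.dvd.mul_right hd _
      · exact Dvd.dvd.mul_left hd _
    have h1 : q % p = 1 % p := hqk.of_dvd hpM
    have h2 : jacobiSym (q : ℤ) p = jacobiSym ((1 : ℕ) : ℤ) p :=
      jacobiSym.mod_left' (by exact_mod_cast h1)
    rw [h2, Nat.cast_one, jacobiSym.one_left]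

/-- one more step of the tower: the same for finitely many numbers -/
theorem step (P : Parts) (hF : ∀ c ∈ F, Pr c) (W : Finset ℕ) (hW : ∀ n ∈ W, n ∈ NF F) (B : ℕ) :
    ∃ D, B < D ∧ Dc F D ∧ ∀ n ∈ W, Qc (sfp (n * D)) := by
  obtain ⟨-, ⟨M, hM, K, hK⟩, -, -, -⟩ := P.cl F hF
  have h1 : Dc F 1 := ⟨squarefree_one, rfl, fun c _ p _ _ _ => by
    rw [Nat.cast_one, jacobiSym.one_left]⟩
  have h := P.gl M hM K (Dc F) hK ⟨1, h1⟩ (fun D hD => by
    have := hD.2.1
    omega) W (fun c hc => by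
    obtain ⟨g1, g2, -⟩ := hW c hc
    refine ⟨g1, by omega, fun D hD => ?_⟩
    have g3 : D % 8 = 1 := hD.2.1
    have g4 : D % 4 = 1 := by omega
    have g5 : c % 4 = 3 := by omega
    rw [Nat.mul_mod, g4, g5])
  have hb := eta_bounds
  exact exists_gt (pow_pos (by linarith [hb.1]) _) (fun B => by
    obtain ⟨D, g1, -, g2⟩ := dc_gt F hF B
    exact ⟨D, g1, g2⟩) h B

/-- the products of the elements of a set of numbers -/
noncomputable def prods (n : ℕ) (s : Finset ℕ) : Finset ℕ :=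
  s.powerset.image fun T => sfp (n * ∏ x ∈ T, x)

theorem nf_set (P : Parts) (hF : ∀ c ∈ F, Pr c) {n : ℕ} (hn : n ∈ NF F) (s : Finset ℕ)
    (hs : ∀ x ∈ s, Dc F x) : sfp (n * ∏ x ∈ s, x) ∈ NF F := by
  obtain ⟨-, -, h3, -, -⟩ := P.cl F hF
  have hn0 : 0 < n := Nat.pos_of_ne_zero hn.1.ne_zero
  induction s using Finset.induction_on with
  | empty =>
    rw [prod_empty, mul_one, sfp_self hn.1]
    exact hn
  | insert a T ha ih =>
    have h1 := ih fun x hx => hs x (mem_insert_of_mem hx)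
    have hpT : 0 < ∏ x ∈ T, x := prod_pos fun x hx =>
      Nat.pos_of_ne_zero (hs x (mem_insert_of_mem hx)).1.ne_zero
    have ha0 : 0 < a := Nat.pos_of_ne_zero (hs a (mem_insert_self _ _)).1.ne_zero
    rw [prod_insert ha, mul_comm a, ← mul_assoc, sfp_mul_left (Nat.mul_pos hn0 hpT) ha0]
    exact h3 _ _ h1 (hs a (mem_insert_self _ _))

/-- **the towers** -/
theorem tower (P : Parts) (hF : ∀ c ∈ F, Pr c) {n : ℕ} (hn : n ∈ NF F) (hQ : Qc n) :
    ∃ D : ℕ → ℕ, StrictMono D ∧ (∀ j, Dc F (D j)) ∧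
      (∀ T : Finset ℕ, T.Nonempty → ¬ IsSquare (∏ i ∈ T, D i)) ∧
      ∀ T : Finset ℕ, Qc (sfp (n * ∏ i ∈ T, D i)) := by
  have hn0 : 0 < n := Nat.pos_of_ne_zero hn.1.ne_zero
  -- a set of discriminants with good products is extended by one element
  have hext : ∀ s : Finset ℕ, (∀ x ∈ s, Dc F x) → ∃ D, (∏ x ∈ s, x) < D ∧ (∀ x ∈ s, x < D) ∧ Dc F D ∧
      ∀ T ⊆ s, Qc (sfp (n * (∏ x ∈ T, x) * D)) := by
    intro s hs
    obtain ⟨D, g1, g2, g3⟩ := step P hF (prods n s) (fun m hm => by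
      obtain ⟨T, hT, rfl⟩ := mem_image.1 hm
      rw [mem_powerset] at hT
      exact nf_set P hF hn T fun x hx => hs x (hT hx)) (∏ x ∈ s, x + ∑ x ∈ s, x)
    have hD0 : 0 < D := by omega
    refine ⟨D, by omega, fun x hx => ?_, g2, fun T hT => ?_⟩
    · have := single_le_sum (f := fun x : ℕ => x) (fun _ _ => Nat.zero_le _) hx
      omega
    · have h1 := g3 (sfp (n * ∏ x ∈ T, x)) (mem_image_of_mem _ (mem_powerset.2 hT))
      have hpT : 0 < ∏ x ∈ T, x := prod_pos fun x hx => Nat.pos_of_ne_zero (hs x (hT hx)).1.ne_zero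
      rwa [← sfp_mul_left (Nat.mul_pos hn0 hpT) hD0] at h1
  choose! g hg1 hg2 hg3 hg4 using hext
  -- the finite sets of the first elements
  let S : ℕ → Finset ℕ := fun k => Nat.rec ∅ (fun _ s => insert (g s) s) k
  have hS0 : S 0 = ∅ := rfl
  have hS1 : ∀ k, S (k + 1) = insert (g (S k)) (S k) := fun k => rfl
  have hSd : ∀ k, ∀ x ∈ S k, Dc F x := by
    intro k
    induction k with
    | zero => intro x hx; rw [hS0] at hx; exact absurd hx (notMem_empty x)
    | succ k ih =>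
      intro x hx
      rw [hS1] at hx
      rcases mem_insert.1 hx with rfl | hx
      · exact hg3 _ ih
      · exact ih x hx
  set D : ℕ → ℕ := fun k => g (S k) with hD
  have hSr : ∀ k, S k = (range k).image D := by
    intro k
    induction k with
    | zero => rw [hS0]; rfl
    | succ k ih => rw [hS1, range_add_one, image_insert, ← ih]
  have hlt : ∀ j k, j < k → D j < D k := fun j k hjk => hg2 (S k) (hSd k) (D j) (by
    rw [hSr]
    exact mem_image_of_mem _ (mem_range.2 hjk))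
  have hmono : StrictMono D := fun a b hab => hlt a b hab
  have hDd : ∀ j, Dc F (D j) := fun j => hg3 _ (hSd j)
  have hprod : ∀ T : Finset ℕ, ∏ i ∈ T, D i = ∏ x ∈ T.image D, x := fun T => by
    rw [prod_image fun a _ b _ h => hmono.injective h]
  have hpp : ∀ T : Finset ℕ, 0 < ∏ i ∈ T, D i := fun T =>
    prod_pos fun i _ => Nat.pos_of_ne_zero (hDd i).1.ne_zero
  refine ⟨D, hmono, hDd, fun T hT hsq => ?_, fun T => ?_⟩
  · -- the largest element
    set k := T.max' hT with hk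
    have hkT : k ∈ T := T.max'_mem hT
    rw [← insert_erase hkT, prod_insert (notMem_erase k T)] at hsq
    set T' := T.erase k with hT'
    have hlt' : ∏ i ∈ T', D i ≤ ∏ x ∈ S k, x := by
      rw [hprod, hSr]
      refine Nat.le_of_dvd ?_ (prod_dvd_prod_of_subset _ _ _ (image_subset_image fun i hi => ?_))
      · rw [← hprod]
        exact hpp _
      · rw [mem_range]
        exact lt_of_le_of_ne (T.le_max' i (mem_of_mem_erase hi)) (ne_of_mem_erase hi)
    obtain ⟨s, hs, h2, h3, h4⟩ := sfp_spec (hpp T')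
    obtain ⟨u, hu⟩ := hsq
    have h6 : D k * (∏ i ∈ T', D i) = u ^ 2 := by rw [hu, pow_two]
    -- `D k * sfp` is a square
    have h7 : D k * (s * sfp (∏ i ∈ T', D i)) ^ 2 = sfp (∏ i ∈ T', D i) * u ^ 2 := by
      rw [← h6]
      generalize sfp (∏ i ∈ T', D i) = y at h2
      rw [← h2]
      ring
    have h8 := Pool.Agent.N856.JL.sq_uniq (hDd k).1 h4 (mul_ne_zero hs.ne' h3.ne') (by
      rintro rfl
      have := Nat.mul_pos (Nat.pos_of_ne_zero (hDd k).1.ne_zero) (hpp T')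
      rw [h6] at this
      simp at this) h7
    have h9 : sfp (∏ i ∈ T', D i) ≤ ∏ i ∈ T', D i := Nat.le_of_dvd (hpp T')
      (Pool.Agent.N856.JL.sfp_dvd (hpp T'))
    have h10 := hg1 (S k) (hSd k)
    have h11 : D k = g (S k) := rfl
    omega
  · rcases T.eq_empty_or_nonempty with rfl | hT
    · rw [prod_empty, mul_one, sfp_self hn.1]
      exact hQ
    · set k := T.max' hT with hk
      have hkT : k ∈ T := T.max'_mem hT
      rw [← insert_erase hkT, prod_insert (notMem_erase k T), mul_comm (D k), ← mul_assoc, hprod]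
      refine hg4 (S k) (hSd k) _ ?_
      rw [hSr]
      refine image_subset_image fun i hi => ?_
      rw [mem_range]
      exact lt_of_le_of_ne (T.le_max' i (mem_of_mem_erase hi)) (ne_of_mem_erase hi)

end one

end Pool.Agent.N873.MF
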