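import Pool.Agent.N873.MF.Stm2

/-!
# MF-ISO: isotypic parts (helper314)
-/

set_option autoImplicit false

open scoped Classical

namespace Pool.Agent.N873.MF.ISO

open Finset WeierstrassCurve Pool.Agent.N873.MF

theorem Delta (A B m : ℤ) (hm : m ≠ 0) (hAB : 4 * A ^ 3 + 27 * B ^ 2 ≠ 0) :
    (WQ (A * m ^ 2) (B * m ^ 3)).Δ ≠ 0 := by
  have h1 : (WQ (A * m ^ 2) (B * m ^ 3)).Δ =
      ((-16 * (4 * A ^ 3 + 27 * B ^ 2) * m ^ 6 : ℤ) : ℚ) := by
    unfold WQ WeierstrassCurve.Δ WeierstrassCurve.b₂ WeierstrassCurve.b₄ WeierstrassCurve.b₆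
      WeierstrassCurve.b₈
    push_cast
    ring
  rw [h1]
  have h2 : -16 * (4 * A ^ 3 + 27 * B ^ 2) * m ^ 6 ≠ 0 :=
    mul_ne_zero (mul_ne_zero (by norm_num) hAB) (pow_ne_zero _ hm)
  exact_mod_cast h2

/-- the coordinates of a point -/
noncomputable def co {K : Type} [Field K] [Algebra ℚ K] {A B : ℤ} : PK K A B → Option (K × K)
  | .zero => none
  | .some x y _ => some (x, y)

theorem co_inj {K : Type} [Field K] [Algebra ℚ K] {A B : ℤ} :
    Function.Injective (co : PK K A B → Option (K × K)) := by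
  intro P Q h
  cases P with
  | zero =>
    cases Q with
    | zero => rfl
    | some x y h' => simp [co] at h
  | some x y h' =>
    cases Q with
    | zero => simp [co] at h
    | some x' y' h'' =>
      simp only [co, Option.some.injEq, Prod.mk.injEq] at h
      obtain ⟨rfl, rfl⟩ := h
      rfl

theorem eqn {K : Type} [Field K] [Algebra ℚ K] {A B : ℤ} {x y : K}
    (h : ((WQ A B).baseChange K).toAffine.Nonsingular x y) :
    y ^ 2 = x ^ 3 + (A : K) * x + (B : K) := by
  have h1 := (WeierstrassCurve.Affine.equation_iff _ _).1 h.1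
  have e1 : ((WQ A B).baseChange K).a₁ = 0 := by
    show algebraMap ℚ K 0 = 0
    simp
  have e2 : ((WQ A B).baseChange K).a₂ = 0 := by
    show algebraMap ℚ K 0 = 0
    simp
  have e3 : ((WQ A B).baseChange K).a₃ = 0 := by
    show algebraMap ℚ K 0 = 0
    simp
  have e4 : ((WQ A B).baseChange K).a₄ = (A : K) := by
    show algebraMap ℚ K (A : ℚ) = A
    simp
  have e6 : ((WQ A B).baseChange K).a₆ = (B : K) := by
    show algebraMap ℚ K (B : ℚ) = B
    simp
  rw [e1, e2, e3, e4, e6] at h1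
  linear_combination h1

theorem fixed {K : Type} [Field K] [NumberField K] {A B : ℤ} {χ : (K ≃ₐ[ℚ] K) →* ℤˣ} {x y : K}
    {h : ((WQ A B).baseChange K).toAffine.Nonsingular x y}
    (hP : (WeierstrassCurve.Affine.Point.some x y h : PK K A B) ∈ Part K A B χ)
    (σ : K ≃ₐ[ℚ] K) : σ x = x ∧ σ y = (((χ σ : ℤˣ) : ℤ) : K) * y := by
  unfold Part at hP
  rw [AddSubgroup.mem_iInf] at hP
  have h1 := hP σ
  rw [AddMonoidHom.mem_ker, AddMonoidHom.sub_apply, sub_eq_zero] at h1
  have h2 : ((((χ σ : ℤˣ) : ℤ) • AddMonoidHom.id (PK K A B)))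
      (WeierstrassCurve.Affine.Point.some x y h) =
      ((χ σ : ℤˣ) : ℤ) • (WeierstrassCurve.Affine.Point.some x y h : PK K A B) := rfl
  rw [h2] at h1
  have h3 : co (WeierstrassCurve.Affine.Point.map (W' := (WQ A B).toAffine) (σ : K →ₐ[ℚ] K)
      (WeierstrassCurve.Affine.Point.some x y h)) = some (σ x, σ y) := rfl
  rcases Int.units_eq_one_or (χ σ) with hs | hs
  · rw [hs, Units.val_one, one_smul] at h1
    rw [h1] at h3
    have h4 : some (x, y) = some (σ x, σ y) := h3
    rw [Option.some.injEq, Prod.mk.injEq] at h4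
    rw [hs]
    refine ⟨h4.1.symm, ?_⟩
    rw [← h4.2]
    simp
  · rw [hs, Units.val_neg, Units.val_one, neg_smul, one_smul] at h1
    rw [h1] at h3
    have h4 : some (x, ((WQ A B).baseChange K).toAffine.negY x y) = some (σ x, σ y) := h3
    rw [Option.some.injEq, Prod.mk.injEq] at h4
    rw [hs]
    refine ⟨h4.1.symm, ?_⟩
    rw [← h4.2]
    unfold WeierstrassCurve.Affine.negY
    have e1 : ((WQ A B).baseChange K).a₁ = 0 := by
      show algebraMap ℚ K 0 = 0
      simp
    have e3 : ((WQ A B).baseChange K).a₃ = 0 := by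
      show algebraMap ℚ K 0 = 0
      simp
    rw [e1, e3]
    push_cast
    ring

end Pool.Agent.N873.MF.ISO

namespace Pool.Agent.N873.MF

open Pool.Agent.N873.MF.ISO

theorem t_ISO : S_ISO := by
  intro K _ _ _ A B m δ χ hm hAB hδ hχ hfin
  have hmK : (m : K) ≠ 0 := by exact_mod_cast hm
  have hδ0 : δ ≠ 0 := by
    rintro rfl
    rw [zero_pow two_ne_zero] at hδ
    exact hmK hδ.symm
  -- coordinates of the image
  have hrat : ∀ (x y : K) (h : ((WQ A B).baseChange K).toAffine.Nonsingular x y),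
      (WeierstrassCurve.Affine.Point.some x y h : PK K A B) ∈ Part K A B χ →
      ∃ x₀ z₀ : ℚ, algebraMap ℚ K x₀ = x ∧ algebraMap ℚ K z₀ = δ * y ∧
        (WQ (A * m ^ 2) (B * m ^ 3)).toAffine.Nonsingular (m * x₀) (m * z₀) := by
    intro x y h hP
    have hfix := fun σ => fixed hP σ
    have hx : x ∈ Set.range (algebraMap ℚ K) :=
      (IsGalois.mem_range_algebraMap_iff_fixed x).2 fun σ => (hfix σ).1
    have hz : δ * y ∈ Set.range (algebraMap ℚ K) := by
      refine (IsGalois.mem_range_algebraMap_iff_fixed (δ * y)).2 fun σ => ?_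
      rw [map_mul, hχ σ, (hfix σ).2]
      rcases Int.units_eq_one_or (χ σ) with hs | hs
      · rw [hs]; simp
      · rw [hs]; push_cast; ring
    obtain ⟨x₀, hx₀⟩ := hx
    obtain ⟨z₀, hz₀⟩ := hz
    refine ⟨x₀, z₀, hx₀, hz₀, ?_⟩
    rw [← WeierstrassCurve.Affine.equation_iff_nonsingular_of_Δ_ne_zero (Delta A B m hm hAB),
      WeierstrassCurve.Affine.equation_iff]
    have h1 := eqn h
    have h2 : algebraMap ℚ K (z₀ ^ 2) = algebraMap ℚ K (m * (x₀ ^ 3 + A * x₀ + B)) := by
      rw [map_pow, hz₀, mul_pow, hδ, h1]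
      simp only [map_mul, map_add, map_pow, hx₀, map_intCast]
    have h3 : z₀ ^ 2 = m * (x₀ ^ 3 + A * x₀ + B) := (algebraMap ℚ K).injective h2
    unfold WQ
    simp only
    push_cast
    linear_combination (m : ℚ) ^ 2 * h3
  -- the map
  let F : Part K A B χ → (WQ (A * m ^ 2) (B * m ^ 3)).toAffine.Point := fun P =>
    match hP : P.1 with
    | .zero => .zero
    | .some x y h => .some _ _ (Classical.choose_spec (Classical.choose_spec
        (hrat x y h (hP ▸ P.2)))).2.2
  have hF0 : ∀ P : Part K A B χ, P.1 = .zero → F P = .zero := by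
    intro P hP
    obtain ⟨P, hP'⟩ := P
    simp only at hP
    subst hP
    rfl
  have hF1 : ∀ (P : Part K A B χ) (x y : K) h, P.1 = .some x y h →
      ∃ (x₀ z₀ : ℚ) (h' : _), algebraMap ℚ K x₀ = x ∧ algebraMap ℚ K z₀ = δ * y ∧
        F P = .some (m * x₀) (m * z₀) h' := by
    intro P x y h hP
    obtain ⟨P, hP'⟩ := P
    simp only at hP
    subst hP
    have hs := Classical.choose_spec (Classical.choose_spec (hrat x y h hP'))
    exact ⟨_, _, hs.2.2, hs.1, hs.2.1, rfl⟩
  have hF : Function.Injective F := by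
    intro P Q hPQ
    apply Subtype.ext
    have hmQ : (m : ℚ) ≠ 0 := by exact_mod_cast hm
    rcases hP : P.1 with _ | ⟨x, y, h⟩
    · rcases hQ : Q.1 with _ | ⟨x', y', h'⟩
      · rfl
      · obtain ⟨x₀, z₀, h'', -, -, h3⟩ := hF1 Q _ _ _ hQ
        rw [hF0 P hP, h3] at hPQ
        exact absurd hPQ (by simp)
    · rcases hQ : Q.1 with _ | ⟨x', y', h'⟩
      · obtain ⟨x₀, z₀, h'', -, -, h3⟩ := hF1 P _ _ _ hP
        rw [hF0 Q hQ, h3] at hPQ
        exact absurd hPQ (by simp)
      · obtain ⟨x₀, z₀, h'', e1, e2, e3⟩ := hF1 P _ _ _ hP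
        obtain ⟨x₁, z₁, h''', e1', e2', e3'⟩ := hF1 Q _ _ _ hQ
        rw [e3, e3', WeierstrassCurve.Affine.Point.some.injEq] at hPQ
        have hx : x₀ = x₁ := mul_left_cancel₀ hmQ hPQ.1
        have hz : z₀ = z₁ := mul_left_cancel₀ hmQ hPQ.2
        have hxx : x = x' := by rw [← e1, ← e1', hx]
        have hyy : y = y' := by
          have : δ * y = δ * y' := by rw [← e2, ← e2', hz]
          exact mul_left_cancel₀ hδ0 this
        subst hxx
        subst hyy
        rfl
  have hfinP : Finite (Part K A B χ) := Finite.of_injective F hF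
  refine ⟨hfinP, ?_⟩
  have hr : Module.rank ℤ (Part K A B χ) = 0 := by
    rw [rank_eq_zero_iff]
    intro P
    have hpos := addOrderOf_pos P
    refine ⟨(addOrderOf P : ℤ), by exact_mod_cast hpos.ne', ?_⟩
    rw [natCast_zsmul]
    exact addOrderOf_nsmul_eq_zero P
  unfold Module.finrank
  rw [hr]
  simp

end Pool.Agent.N873.MF
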