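import Mathlib

/-!
# Project MF (helper873): the isotypic parts of the group of the points over a multiquadratic field

`G = Gal(K/ℚ)`, `K = ℚ(√d_1, …, √d_r)` of degree `2 ^ r`; the irreducible representations of `G` are the characters
`χ : G → {±1}`, and the multiplicity of `χ` in `E(K) ⊗ ℂ` is the rank of `Part K A B χ`.
The statements are independent of each other.
-/

set_option autoImplicit false
set_option linter.unusedVariables false

open scoped Classical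

namespace Pool.Agent.N873.MF

open Finset

/-- `y² = x³ + A x + B` over `ℚ` -/
def WQ (A B : ℤ) : WeierstrassCurve ℚ := ⟨0, 0, 0, (A : ℚ), (B : ℚ)⟩

/-- the group of the points over `K` -/
abbrev PK (K : Type) [Field K] [Algebra ℚ K] (A B : ℤ) : Type :=
  ((WQ A B).baseChange K).toAffine.Point

/-- the points `P` over `K` with `σ(P) = χ(σ) P` for all `σ` -/
noncomputable def Part (K : Type) [Field K] [Algebra ℚ K] (A B : ℤ) (χ : (K ≃ₐ[ℚ] K) →* ℤˣ) :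
    AddSubgroup (PK K A B) :=
  ⨅ σ : K ≃ₐ[ℚ] K, AddMonoidHom.ker (WeierstrassCurve.Affine.Point.map (W' := (WQ A B).toAffine)
    (σ : K →ₐ[ℚ] K) - ((χ σ : ℤˣ) : ℤ) • AddMonoidHom.id (PK K A B))

/-- MF-ISO: if `σ δ = χ(σ) δ` for all `σ`, `δ² = m`, then `(x, y) ↦ (m x, m δ y)` maps the part of `χ` injectively to
the rational points of `Y² = X³ + A m² X + B m³`: for a point `(x, y)` of the part one has `σ x = x` and
`σ y = χ(σ) y` (`-(x, y) = (x, -y)`), so `x` and `δ y` are rational. -/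
def S_ISO : Prop := ∀ (K : Type) [Field K] [NumberField K] [IsGalois ℚ K] (A B m : ℤ) (δ : K)
  (χ : (K ≃ₐ[ℚ] K) →* ℤˣ), m ≠ 0 → 4 * A ^ 3 + 27 * B ^ 2 ≠ 0 → δ ^ 2 = (m : K) →
  (∀ σ : K ≃ₐ[ℚ] K, σ δ = (((χ σ : ℤˣ) : ℤ) : K) * δ) →
  Finite (WQ (A * m ^ 2) (B * m ^ 3)).toAffine.Point →
  Finite (Part K A B χ) ∧ Module.finrank ℤ (Part K A B χ) = 0

/-- MF-CHR: the characters of `G` are the `χ_T`, `σ (∏_{i ∈ T} x_i) = χ_T(σ) ∏_{i ∈ T} x_i`. The map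
`σ ↦ (σ x_i / x_i)_i` from `G` to `{±1}^r` is injective (the `x_i` generate `K`), and bijective since the degree of
`K` is `2 ^ r`; every character of `{±1}^r` is the product of the coordinates in exactly one set `T`. -/
def S_CHR : Prop := ∀ (r : ℕ) (d : Fin r → ℕ), (∀ i, 0 < d i) →
  (∀ T : Finset (Fin r), T.Nonempty → ¬ IsSquare (∏ i ∈ T, d i)) →
  ∀ (K : Type) [Field K] [NumberField K] (x : Fin r → K), (∀ i, x i ^ 2 = (d i : K)) →
  IntermediateField.adjoin ℚ (Set.range x) = ⊤ →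
  IsGalois ℚ K ∧ Module.finrank ℚ K = 2 ^ r ∧
  (∀ T : Finset (Fin r), ∃ χ : (K ≃ₐ[ℚ] K) →* ℤˣ, ∀ σ : K ≃ₐ[ℚ] K,
    σ (∏ i ∈ T, x i) = (((χ σ : ℤˣ) : ℤ) : K) * ∏ i ∈ T, x i) ∧
  ∀ χ : (K ≃ₐ[ℚ] K) →* ℤˣ, ∃! T : Finset (Fin r), ∀ σ : K ≃ₐ[ℚ] K,
    σ (∏ i ∈ T, x i) = (((χ σ : ℤˣ) : ℤ) : K) * ∏ i ∈ T, x i

end Pool.Agent.N873.MF
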