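import Mathlib
import Pool.Agent.N873.MF.Fin
import Pool.Agent.N873.MF.FLD
import Pool.Agent.N873.MF.GL
import Pool.Agent.N873.MF.CL
import Pool.Agent.N873.UT.Parts2

/-!
# Project MF (helper873): translations between the numbers, the curves over `ℚ` and the class groups
-/

set_option autoImplicit false
set_option linter.unusedVariables false

open scoped Classical

namespace Pool.Agent.N873.MF

open Finset NumberField Filter
open Pool.Agent.TH841.SH.D (Sha)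
open Pool.Agent.N969.P15 (Qc)
open Pool.Agent.N916.GB (eta eta_bounds)
open Pool.Agent.N856.JL (sfp sfp_spec sfp_pos sfp_sqf sfp_mul_sq sfp_self)
open Pool.Agent.N873.UT (NF Pr Adm Triv EQ Em parts2 triv_iff r4_iff bound gs gs_iff exK r4)

theorem parts : Parts := ⟨t_CL, t_GL, t_FLD⟩

/-- finitely many points and `Ш[2 ^ ∞] = 0` -/
def TrivW (W : WeierstrassCurve ℚ) : Prop := Finite W.toAffine.Point ∧
  ∀ (k : ℕ) (x : Sha W), (2 ^ k : ℕ) • x = 0 → x = 0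

theorem pow_of_two {A : Type} [AddCommGroup A] (h : ∀ x : A, x + x = 0 → x = 0) (k : ℕ) (x : A)
    (hx : (2 ^ k : ℕ) • x = 0) : x = 0 := by
  induction k with
  | zero => rwa [pow_zero, one_smul] at hx
  | succ k ih =>
    rw [pow_succ, mul_comm, mul_smul, two_nsmul] at hx
    exact ih (h _ hx)

theorem trivW_iff (W : WeierstrassCurve ℚ) : TrivW W ↔ Finite W.toAffine.Point ∧
    ∀ x : Sha W, x + x = 0 → x = 0 :=
  ⟨fun h => ⟨h.1, fun x hx => h.2 1 x (by rw [pow_one, two_nsmul]; exact hx)⟩,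
    fun h => ⟨h.1, fun k x hx => pow_of_two h.2 k x hx⟩⟩

/-- change of the equation -/
theorem trivW_vr {W W' : WeierstrassCurve ℚ} {u r s t : ℚ} (h : Pool.Agent.Y700.VR W W' u r s t)
    (hΔ : W'.Δ ≠ 0) : TrivW W ↔ TrivW W' := by
  obtain ⟨h1, h2, -⟩ := Pool.Agent.Z932.Z702.t_TRN _ _ _ _ _ _ h hΔ
  rw [trivW_iff, trivW_iff]
  exact and_congr h1 h2

/-- the discriminant of the short equation -/
theorem disc {c : ℤ × ℤ} (hc : Pr c) {m : ℤ} (hm : m ≠ 0) : 4 * cA m c ^ 3 + 27 * cB m c ^ 2 ≠ 0 := by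
  obtain ⟨k1, k2, k3, k4⟩ := hc
  have e : 4 * cA m c ^ 3 + 27 * cB m c ^ 2 =
      -(729 * (m ^ 3 * (c.1 ^ 2 * c.2 ^ 2 * (c.1 ^ 2 - c.2 ^ 2)))) ^ 2 := by
    unfold cA cB
    ring
  have h1 : c.1 ^ 2 - c.2 ^ 2 ≠ 0 := by
    intro h
    have h1 : c.1 ^ 2 = c.2 ^ 2 := by linarith
    rcases sq_eq_sq_iff_eq_or_eq_neg.1 h1 with h2 | h2 <;> omega
  have h2 : c.1 ≠ 0 := by omega
  rw [e]
  exact neg_ne_zero.2 (pow_ne_zero 2 (mul_ne_zero (by norm_num) (mul_ne_zero (pow_ne_zero 3 hm)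
    (mul_ne_zero (mul_ne_zero (pow_ne_zero 2 h2) (pow_ne_zero 2 k4)) h1))))

theorem delta {c : ℤ × ℤ} (hc : Pr c) {m : ℤ} (hm : m ≠ 0) : (EK ℚ m c).Δ ≠ 0 := by
  have e : (EK ℚ m c).Δ = -16 * ((4 * cA m c ^ 3 + 27 * cB m c ^ 2 : ℤ) : ℚ) := by
    simp only [EK, WeierstrassCurve.Δ, WeierstrassCurve.b₂, WeierstrassCurve.b₄,
      WeierstrassCurve.b₆, WeierstrassCurve.b₈]
    push_cast
    ring
  rw [e]
  exact mul_ne_zero (by norm_num) (by exact_mod_cast disc hc hm)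

/-- the curve over `ℚ` for a number which is not squarefree -/
theorem triv_short {c : ℤ × ℤ} (hc : Pr c) {m : ℕ} (hm : 0 < m) :
    TrivW (EK ℚ m c) ↔ Triv (sfp m) c.1 c.2 := by
  obtain ⟨s, hs, h1, h2, h3⟩ := sfp_spec hm
  set k := sfp m with hk
  have hsq : (s : ℚ) ≠ 0 := by exact_mod_cast hs.ne'
  have hm' : (m : ℚ) = k * (s : ℚ) ^ 2 := by exact_mod_cast h1.symm
  have hvr : Pool.Agent.Y700.VR (EQ k c.1 c.2) (EK ℚ m c) (1 / (3 * (s : ℚ)))
      ((k : ℚ) * ((c.1 : ℚ) ^ 2 + (c.2 : ℚ) ^ 2) / 3) 0 0 := by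
    refine ⟨by positivity, ?_, ?_, ?_, ?_, ?_⟩
    · simp [EK, Em]
    · simp [EK, Em]
      ring
    · simp [EK, Em]
    · simp only [EK, Em, cA, WeierstrassCurve.map, eq_intCast]
      push_cast
      rw [hm']
      field_simp
      ring
    · simp only [EK, Em, cB, WeierstrassCurve.map, eq_intCast]
      push_cast
      rw [hm']
      field_simp
      ring
  have h := trivW_vr hvr (delta hc (by exact_mod_cast hm.ne'))
  exact h.symm.trans Iff.rfl

/-- the number of the squares of the classes whose order divides four -/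
noncomputable def twoFour (K : Type) [Field K] [NumberField K] : ℕ :=
  Nat.card {y : ClassGroup (𝓞 K) // ∃ x : ClassGroup (𝓞 K), x ^ 4 = 1 ∧ x ^ 2 = y}

/-- the 4-rank of the class group of `ℚ(√-m)` is `R` -/
def FourRank (m R : ℕ) : Prop := ∀ (K : Type) [Field K] [NumberField K], Module.finrank ℚ K = 2 →
  (∃ s : K, s ^ 2 = -(m : K)) → twoFour K = 2 ^ R

theorem fr_sfp {m : ℕ} (hm : 0 < m) (R : ℕ) : FourRank m R ↔ FourRank (sfp m) R := by
  obtain ⟨t, ht, h1, h2, h3⟩ := sfp_spec hm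
  constructor
  · intro h K _ _ hK hs
    obtain ⟨s, hs⟩ := hs
    refine h K hK ⟨s * t, ?_⟩
    have e : (m : K) = (sfp m : K) * (t : K) ^ 2 := by exact_mod_cast h1.symm
    rw [e, mul_pow, hs]
    ring
  · intro h K _ _ hK hs
    obtain ⟨s, hs⟩ := hs
    have ht' : (t : K) ≠ 0 := by exact_mod_cast ht.ne'
    refine h K hK ⟨s / t, ?_⟩
    have e : (m : K) = (sfp m : K) * (t : K) ^ 2 := by exact_mod_cast h1.symm
    rw [div_pow, hs, e]
    field_simp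

/-- the class group and the criterion -/
theorem fr_iff {n : ℕ} (hn : Squarefree n) (h4 : n % 4 = 3) : FourRank n 0 ↔ Qc n := by
  have hr : ∀ (K : Type) [Field K] [NumberField K], Module.finrank ℚ K = 2 →
      (∃ s : K, s ^ 2 = -(n : K)) → (twoFour K = 1 ↔ Qc n) := by
    intro K _ _ h2 hs
    rw [← r4_iff hn h4 K h2 hs]
    unfold twoFour
    rw [Nat.card_eq_one_iff_unique]
    constructor
    · rintro ⟨⟨h3⟩, -⟩ c hc4
      have := h3 ⟨c ^ 2, c, hc4, rfl⟩ ⟨1, 1, one_pow 4, one_pow 2⟩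
      exact congrArg Subtype.val this
    · intro h
      refine ⟨⟨?_⟩, ⟨⟨1, 1, one_pow 4, one_pow 2⟩⟩⟩
      rintro ⟨y, x, hx, hy⟩ ⟨y', x', hx', hy'⟩
      apply Subtype.ext
      show y = y'
      rw [← hy, ← hy', h x hx, h x' hx']
  constructor
  · intro h
    obtain ⟨K, i1, i2, h2, hs⟩ := exK n hn.ne_zero
    exact (hr K h2 hs).1 (h K h2 hs)
  · intro h K _ _ h2 hs
    rw [pow_zero]
    exact (hr K h2 hs).2 h

/-- the rank in terms of the 4-rank -/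
theorem rank_le {n : ℕ} {c : ℤ × ℤ} (h : Adm n c.1 c.2) {R : ℕ} (hR : FourRank n R) :
    Module.finrank ℤ (EQ n c.1 c.2).toAffine.Point ≤ 2 * R := by
  obtain ⟨K, i1, i2, h2, hs⟩ := exK n h.sqf.ne_zero
  obtain ⟨h5, h6⟩ := bound parts2.p h K h2 hs
  have hr : r4 K = 2 ^ R := hR K h2 hs
  have h7 : 0 < Nat.card {x : Sha (EQ n c.1 c.2) // x + x = 0} := by
    have : Nonempty {x : Sha (EQ n c.1 c.2) // x + x = 0} := ⟨⟨0, add_zero 0⟩⟩
    exact Nat.card_pos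
  rw [hr, ← pow_mul, mul_comm R 2] at h6
  have h8 : 2 ^ Module.finrank ℤ (EQ n c.1 c.2).toAffine.Point ≤ 2 ^ (2 * R) :=
    (Nat.le_mul_of_pos_right _ h7).trans h6
  exact (Nat.pow_le_pow_iff_right (by norm_num)).1 h8

section F

variable {F : Finset (ℤ × ℤ)} {r : ℕ} {d : Fin r → ℕ}

/-- the good numbers in terms of the class groups -/
theorem gd_iff (hF : ∀ c ∈ F, Pr c) (hd : ∀ i, Dc F (d i)) {n : ℕ} (hn : n ∈ NF F)
    (T : Finset (Fin r)) : FourRank (n * ∏ i ∈ T, d i) 0 ↔ Qc (sfp (n * ∏ i ∈ T, d i)) := by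
  have h1 := nf_prod parts hF hd hn T
  have h0 : 0 < n * ∏ i ∈ T, d i :=
    Nat.mul_pos (Nat.pos_of_ne_zero hn.1.ne_zero) (pos_prod hd T)
  rw [fr_sfp h0]
  refine fr_iff h1.1 ?_
  have := h1.2.1
  omega

/-- the curves over `ℚ` -/
theorem triv_prod (hF : ∀ c ∈ F, Pr c) (hd : ∀ i, Dc F (d i)) {n : ℕ} (hn : n ∈ NF F)
    (T : Finset (Fin r)) {c : ℤ × ℤ} (hc : c ∈ F) :
    TrivW (EK ℚ ((n * ∏ i ∈ T, d i : ℕ) : ℤ) c) ↔ Qc (sfp (n * ∏ i ∈ T, d i)) := by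
  have h1 := nf_prod parts hF hd hn T
  have h0 : 0 < n * ∏ i ∈ T, d i :=
    Nat.mul_pos (Nat.pos_of_ne_zero hn.1.ne_zero) (pos_prod hd T)
  rw [triv_short (hF c hc) h0]
  exact triv_iff parts2.p (h1.2.2 c hc)

end F

end Pool.Agent.N873.MF
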